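import Pool.Agent.X205.BE.Core

/-! From the inequality for trigonometric polynomials to ridge polynomials. -/

set_option autoImplicit false

open BoundedContinuousFunction Filter Topology
open scoped BoundedContinuousFunction RealInnerProductSpace

namespace Pool.Agent.X205.BE

/-- Value of a polynomial at a point of ℝⁿ. -/
noncomputable def ev {n : ℕ} (τ : MvPolynomial (Fin n) ℂ) (ξ : EuclideanSpace ℝ (Fin n)) : ℂ :=
  MvPolynomial.eval (fun k => ((ξ k : ℝ) : ℂ)) τ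

variable {n : ℕ}


theorem ev_continuous (τ : MvPolynomial (Fin n) ℂ) : Continuous (fun ξ : (EuclideanSpace ℝ (Fin n)) => ev τ ξ) := by
  have h1 : Continuous (fun z : Fin n → ℂ => MvPolynomial.eval z τ) :=
    MvPolynomial.continuous_eval τ
  exact h1.comp (continuous_pi fun k => Complex.continuous_ofReal.comp
    ((EuclideanSpace.proj k).continuous))

/-- The bivariate polynomial of a plane. -/
theorem exists_biv (τ : MvPolynomial (Fin n) ℂ) (x u t : (EuclideanSpace ℝ (Fin n))) :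
    ∃ Q : Polynomial (Polynomial ℂ), ∀ s y : ℝ,
      ev τ (x + (-(s • u) + y • t)) = ∑ i ∈ Finset.range (Q.natDegree + 1),
        (Q.coeff i).eval (s : ℂ) * (y : ℂ) ^ i := by
  refine ⟨MvPolynomial.eval₂Hom ((Polynomial.C).comp (Polynomial.C : ℂ →+* Polynomial ℂ))
    (fun k => Polynomial.C (Polynomial.C ((x k : ℝ) : ℂ)) +
      (-(Polynomial.C (Polynomial.X * Polynomial.C ((u k : ℝ) : ℂ))) +
        Polynomial.X * Polynomial.C (Polynomial.C ((t k : ℝ) : ℂ)))) τ, fun s y => ?_⟩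
  set Q := MvPolynomial.eval₂Hom ((Polynomial.C).comp (Polynomial.C : ℂ →+* Polynomial ℂ))
    (fun k => Polynomial.C (Polynomial.C ((x k : ℝ) : ℂ)) +
      (-(Polynomial.C (Polynomial.X * Polynomial.C ((u k : ℝ) : ℂ))) +
        Polynomial.X * Polynomial.C (Polynomial.C ((t k : ℝ) : ℂ)))) τ with hQ
  have h1 : Q.evalEval (s : ℂ) (y : ℂ) = ev τ (x + (-(s • u) + y • t)) := by
    rw [← Polynomial.coe_evalEvalRingHom, hQ, ← RingHom.comp_apply]
    unfold ev
    congr 1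
    refine MvPolynomial.ringHom_ext (fun c => ?_) (fun k => ?_)
    · simp
    · simp [Polynomial.evalEval]
      ring
  rw [← h1]
  unfold Polynomial.evalEval
  rw [Polynomial.eval_eq_sum_range (p := Q) (Polynomial.C (y : ℂ)), Polynomial.eval_finset_sum]
  refine Finset.sum_congr rfl fun i _ => ?_
  simp

/-- The inequality for trigonometric polynomials. -/
def TrigIneq (τ : MvPolynomial (Fin n) ℂ) (K : Set (EuclideanSpace ℝ (Fin n))) (M : ℝ) : Prop :=
  ∀ c : K →₀ ℂ, ‖c.sum fun ξ a => a * ev τ ξ.1‖ ≤ M * ‖c.sum fun ξ a => a • ex ξ.1‖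

theorem exists_functional (τ : MvPolynomial (Fin n) ℂ) (K : Set (EuclideanSpace ℝ (Fin n))) (M : ℝ) (hM : 0 ≤ M)
    (h : TrigIneq τ K M) : ∃ g : StrongDual ℂ ((EuclideanSpace ℝ (Fin n)) →ᵇ ℂ), ‖g‖ ≤ M ∧ ∀ ξ ∈ K, g (ex ξ) = ev τ ξ := by
  set Φ : (K →₀ ℂ) →ₗ[ℂ] ((EuclideanSpace ℝ (Fin n)) →ᵇ ℂ) := Finsupp.linearCombination ℂ (fun ξ : K => ex ξ.1) with hΦ
  set l : (K →₀ ℂ) →ₗ[ℂ] ℂ := Finsupp.linearCombination ℂ (fun ξ : K => ev τ ξ.1) with hl
  have hle : ∀ c, ‖l c‖ ≤ M * ‖Φ c‖ := fun c => by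
    have := h c
    rw [hΦ, hl, Finsupp.linearCombination_apply, Finsupp.linearCombination_apply]
    simpa only [smul_eq_mul] using this
  have hker : l ∈ (LinearMap.ker Φ).dualAnnihilator := by
    rw [Submodule.mem_dualAnnihilator]
    intro c hc
    have := hle c
    rw [LinearMap.mem_ker.1 hc, norm_zero, mul_zero] at this
    exact norm_le_zero_iff.1 this
  rw [← LinearMap.range_dualMap_eq_dualAnnihilator_ker] at hker
  obtain ⟨g0, hg0⟩ := hker
  have hg0' : ∀ c, g0 (Φ c) = l c := fun c => by rw [← hg0]; rfl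
  set p : Subspace ℂ ((EuclideanSpace ℝ (Fin n)) →ᵇ ℂ) := LinearMap.range Φ with hp
  set f : StrongDual ℂ p := LinearMap.mkContinuous (g0.domRestrict p) M (fun x => by
    obtain ⟨c, hc⟩ := x.2
    rw [LinearMap.domRestrict_apply, ← hc, hg0']
    have : ‖x‖ = ‖Φ c‖ := by rw [hc]; rfl
    rw [this]
    exact hle c) with hf
  obtain ⟨g, hg, hgn⟩ := exists_extension_norm_eq p f
  refine ⟨g, ?_, fun ξ hξ => ?_⟩
  · rw [hgn]
    exact LinearMap.mkContinuous_norm_le _ hM _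
  · have e1 : ex ξ = Φ (Finsupp.single ⟨ξ, hξ⟩ 1) := by
      rw [hΦ, Finsupp.linearCombination_single, one_smul]
    have hmem : ex ξ ∈ p := ⟨_, e1.symm⟩
    have e2 := hg ⟨ex ξ, hmem⟩
    rw [e2, hf]
    show g0 (ex ξ) = _
    rw [e1, hg0', hl, Finsupp.linearCombination_single, one_smul]

theorem in_ball (r ρ s y : ℝ) (hr : 0 < r) (hρ0 : 0 ≤ ρ) (hρ : ρ ≤ r) (u t : (EuclideanSpace ℝ (Fin n)))
    (hu : ‖u‖ = 1) (ht : ‖t‖ = 1) (hut : inner ℝ u t = 0) (hs0 : 0 ≤ s) (hs : s ≤ r / 2)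
    (hy : y ^ 2 ≤ r * s) : ρ • u + (-(s • u) + y • t) ∈ Metric.closedBall (0 : (EuclideanSpace ℝ (Fin n))) r := by
  rw [mem_closedBall_zero_iff]
  have e1 : ρ • u + (-(s • u) + y • t) = (ρ - s) • u + y • t := by rw [sub_smul]; abel
  have e2 : ‖(ρ - s) • u + y • t‖ ^ 2 = (ρ - s) ^ 2 + y ^ 2 := by
    rw [norm_add_sq_real, norm_smul, norm_smul, hu, ht, inner_smul_left, inner_smul_right, hut]
    simp
  rw [e1]
  refine le_of_sq_le_sq ?_ hr.le
  rw [e2]
  have h3 : (ρ - s) ^ 2 ≤ (r - s) ^ 2 := by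
    apply sq_le_sq'
    · linarith
    · linarith
  nlinarith

/-- The shift invariance on the ball. -/
theorem shift_inv (τ : MvPolynomial (Fin n) ℂ) (r ρ : ℝ) (hr : 0 < r) (hρ0 : 0 ≤ ρ)
    (hρ : ρ ≤ r) (u t : (EuclideanSpace ℝ (Fin n))) (hu : ‖u‖ = 1) (ht : ‖t‖ = 1) (hut : inner ℝ u t = 0)
    (hne : ev τ (ρ • u) ≠ 0)
    (h : TrigIneq τ (Metric.closedBall (0 : (EuclideanSpace ℝ (Fin n))) r) ‖ev τ (ρ • u)‖)
    (ζ : (EuclideanSpace ℝ (Fin n))) (η : ℝ) (hη : 0 < η) (h1 : ζ ∈ Metric.closedBall (0 : (EuclideanSpace ℝ (Fin n))) r)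
    (h2 : ζ + η • t ∈ Metric.closedBall (0 : (EuclideanSpace ℝ (Fin n))) r) : ev τ (ζ + η • t) = ev τ ζ := by
  set K := Metric.closedBall (0 : (EuclideanSpace ℝ (Fin n))) r with hK
  set x := ρ • u with hx
  have hxK : x ∈ K := by
    rw [hK, mem_closedBall_zero_iff, hx, norm_smul, hu, mul_one, Real.norm_of_nonneg hρ0]
    exact hρ
  obtain ⟨g, hgn, hg⟩ := exists_functional τ K _ (norm_nonneg _) h
  set L : StrongDual ℂ ((EuclideanSpace ℝ (Fin n)) →ᵇ ℂ) := (ev τ x)⁻¹ • (g.comp (ContinuousLinearMap.mul ℂ _ (ex x)))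
    with hL
  have hLap : ∀ f, L f = (ev τ x)⁻¹ * g (ex x * f) := fun f => rfl
  have hLn : ‖L‖ ≤ 1 := by
    refine ContinuousLinearMap.opNorm_le_bound _ zero_le_one fun f => ?_
    rw [hLap, norm_mul, norm_inv, one_mul, inv_mul_le_iff₀ (norm_pos_iff.2 hne)]
    refine (g.le_opNorm _).trans ?_
    refine mul_le_mul hgn ?_ (norm_nonneg _) (norm_nonneg _)
    rw [BoundedContinuousFunction.norm_le (norm_nonneg _)]
    intro z
    have : (ex x * f) z = ex x z * f z := rfl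
    rw [this, norm_mul, ex_norm_apply, one_mul]
    exact f.norm_coe_le_norm z
  have hL1 : L 1 = 1 := by
    rw [hLap, mul_one, hg x hxK, inv_mul_cancel₀ hne]
  have hLex : ∀ v, x + v ∈ K → L (ex v) = (ev τ x)⁻¹ * ev τ (x + v) := fun v hv => by
    rw [hLap, ← ex_add, hg _ hv]
  obtain ⟨Q, hQ⟩ := exists_biv τ x u t
  have hbd : ∀ i, ∃ b : ℝ, ∀ s ∈ Set.Icc (0 : ℝ) (r / 2), ‖(Q.coeff i).eval (s : ℂ)‖ ≤ b := by
    intro i
    have hc : ContinuousOn (fun s : ℝ => (Q.coeff i).eval (s : ℂ)) (Set.Icc (0 : ℝ) (r / 2)) :=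
      ((Polynomial.continuous _).comp Complex.continuous_ofReal).continuousOn
    exact isCompact_Icc.exists_bound_of_continuousOn hc
  choose b hb using hbd
  set B : ℝ := ‖(ev τ x)⁻¹‖ * ∑ i ∈ Finset.range (Q.natDegree + 1), |b i| with hB
  have hinB : ∀ s y : ℝ, 0 ≤ s → s ≤ r / 2 → y ^ 2 ≤ r * s → x + (-(s • u) + y • t) ∈ K :=
    fun s y a1 a2 a3 => in_ball r ρ s y hr hρ0 hρ u t hu ht hut a1 a2 a3
  have hD : Dat L u t r (Q.natDegree + 1) B := by
    refine ⟨hLn, hL1, hr, fun s hs0 hs => ?_, fun ε hε => ?_⟩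
    · refine ⟨fun i => (ev τ x)⁻¹ * (Q.coeff i).eval (s : ℂ), fun i => ?_, fun y hy => ?_⟩
      · rw [norm_mul, hB]
        refine mul_le_mul_of_nonneg_left ?_ (norm_nonneg _)
        rcases lt_or_ge i (Q.natDegree + 1) with hi | hi
        · calc ‖(Q.coeff i).eval (s : ℂ)‖ ≤ b i := hb i s ⟨hs0, hs⟩
            _ ≤ |b i| := le_abs_self _
            _ ≤ _ := Finset.single_le_sum (f := fun i => |b i|) (fun i _ => abs_nonneg _)
                (Finset.mem_range.2 hi)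
        · rw [Polynomial.coeff_eq_zero_of_natDegree_lt (by omega), Polynomial.eval_zero,
            norm_zero]
          exact Finset.sum_nonneg fun i _ => abs_nonneg _
      · rw [hLex _ (hinB s y hs0 hs hy), hQ, Finset.mul_sum]
        exact Finset.sum_congr rfl fun i _ => by ring
    · have hcont : ContinuousAt (fun ξ : (EuclideanSpace ℝ (Fin n)) => (ev τ x)⁻¹ * ev τ ξ) x :=
        ((continuous_const.mul (ev_continuous τ))).continuousAt
      rw [Metric.continuousAt_iff] at hcont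
      obtain ⟨δ, hδ, hc⟩ := hcont ε hε
      refine ⟨min (r / 2) (min (δ / 4) (δ ^ 2 / (16 * r))), by positivity,
        fun s hs0 hs y hy => ?_⟩
      have a1 : s ≤ r / 2 := hs.trans (min_le_left _ _)
      have a2 : s ≤ δ / 4 := hs.trans ((min_le_right _ _).trans (min_le_left _ _))
      have a3 : s ≤ δ ^ 2 / (16 * r) := hs.trans ((min_le_right _ _).trans (min_le_right _ _))
      rw [hLex _ (hinB s y hs0 a1 hy)]
      have a4 : |y| ≤ δ / 4 := by
        refine abs_le_of_sq_le_sq ?_ (by positivity)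
        rw [le_div_iff₀ (by positivity)] at a3
        nlinarith
      have a5 : dist (x + (-(s • u) + y • t)) x < δ := by
        rw [dist_eq_norm, add_sub_cancel_left]
        calc ‖-(s • u) + y • t‖ ≤ ‖-(s • u)‖ + ‖y • t‖ := norm_add_le _ _
          _ = s + |y| := by
              rw [norm_neg, norm_smul, norm_smul, hu, ht, mul_one, mul_one,
                Real.norm_of_nonneg hs0, Real.norm_eq_abs]
          _ < δ := by linarith
      have a6 := hc a5
      rw [inv_mul_cancel₀ hne, dist_eq_norm, norm_sub_rev] at a6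
      have a7 := (Complex.re_le_norm _).trans a6.le
      rwa [Complex.sub_re, Complex.one_re] at a7
  have key := hD.shift (ζ - x) η hη
  have e1 : x + (ζ - x) = ζ := by abel
  have e2 : x + (ζ - x + η • t) = ζ + η • t := by abel
  rw [hLex _ (by rw [e2]; exact h2), hLex _ (by rw [e1]; exact h1), e1, e2] at key
  exact mul_left_cancel₀ (inv_ne_zero hne) key

/-- The univariate polynomial z ↦ τ(z ξ). -/
noncomputable def ray (τ : MvPolynomial (Fin n) ℂ) (ξ : (EuclideanSpace ℝ (Fin n))) : Polynomial ℂ :=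
  MvPolynomial.eval₂Hom (Polynomial.C : ℂ →+* Polynomial ℂ)
    (fun k => Polynomial.C ((ξ k : ℝ) : ℂ) * Polynomial.X) τ

theorem ray_eval (τ : MvPolynomial (Fin n) ℂ) (ξ : (EuclideanSpace ℝ (Fin n))) (z : ℝ) :
    (ray τ ξ).eval (z : ℂ) = ev τ (z • ξ) := by
  unfold ray ev
  rw [← Polynomial.coe_evalRingHom, ← RingHom.comp_apply]
  congr 1
  refine MvPolynomial.ringHom_ext (fun c => ?_) (fun k => ?_)
  · simp
  · simp
    ring

theorem eq_of_ball (τ : MvPolynomial (Fin n) ℂ) (r : ℝ) (hr : 0 < r) (ξ ζ : (EuclideanSpace ℝ (Fin n)))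
    (h : ∀ z : ℝ, 0 < z → z * ‖ξ‖ ≤ r → ev τ (z • ξ) = ev τ (z • ζ)) : ev τ ξ = ev τ ζ := by
  have h1 : ray τ ξ = ray τ ζ := by
    refine Polynomial.eq_of_infinite_eval_eq _ _ ?_
    have hs : (fun z : ℝ => (z : ℂ)) '' Set.Ioo (0 : ℝ) (r / (‖ξ‖ + 1)) ⊆
        {x : ℂ | (ray τ ξ).eval x = (ray τ ζ).eval x} := by
      rintro _ ⟨z, hz, rfl⟩
      show (ray τ ξ).eval (z : ℂ) = (ray τ ζ).eval (z : ℂ)
      rw [ray_eval, ray_eval]
      refine h z hz.1 ?_
      have h2 := (lt_div_iff₀ (by positivity : 0 < ‖ξ‖ + 1)).1 hz.2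
      nlinarith [hz.1]
    refine Set.Infinite.mono hs ?_
    exact (Set.Ioo_infinite (by positivity)).image (Complex.ofReal_injective.injOn)
  have h2 := ray_eval τ ξ 1
  have h3 := ray_eval τ ζ 1
  rw [one_smul] at h2 h3
  rw [← h2, ← h3, h1]

/-- Ridge polynomials. -/
def IsRidge (τ : MvPolynomial (Fin n) ℂ) : Prop :=
  ∃ (a : (EuclideanSpace ℝ (Fin n))) (ρ : Polynomial ℂ), ∀ ξ : (EuclideanSpace ℝ (Fin n)), ev τ ξ = ρ.eval ((inner ℝ a ξ : ℝ) : ℂ)

theorem ridge_of_trig (τ : MvPolynomial (Fin n) ℂ) (r : ℝ) (hr : 0 < r) (x : (EuclideanSpace ℝ (Fin n)))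
    (hx : x ∈ Metric.closedBall (0 : (EuclideanSpace ℝ (Fin n))) r)
    (hmax : ∀ ξ ∈ Metric.closedBall (0 : (EuclideanSpace ℝ (Fin n))) r, ‖ev τ ξ‖ ≤ ‖ev τ x‖)
    (h : TrigIneq τ (Metric.closedBall (0 : (EuclideanSpace ℝ (Fin n))) r) ‖ev τ x‖) : IsRidge τ := by
  by_cases hne : ev τ x = 0
  · refine ⟨0, 0, fun ξ => ?_⟩
    have : ev τ ξ = ev τ (0 : (EuclideanSpace ℝ (Fin n))) := eq_of_ball τ r hr ξ 0 fun z hz hz2 => by
      have a1 := hmax (z • ξ) (by
        rw [mem_closedBall_zero_iff, norm_smul, Real.norm_of_nonneg hz.le]; exact hz2)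
      have a2 := hmax (z • (0 : (EuclideanSpace ℝ (Fin n)))) (by simp [hr.le])
      rw [hne, norm_zero] at a1 a2
      rw [norm_le_zero_iff.1 a1, norm_le_zero_iff.1 a2]
    have a2 := hmax (0 : (EuclideanSpace ℝ (Fin n))) (by simp [hr.le])
    rw [hne, norm_zero] at a2
    rw [this, norm_le_zero_iff.1 a2, Polynomial.eval_zero]
  by_cases hall : ∀ ξ : (EuclideanSpace ℝ (Fin n)), ξ = 0
  · refine ⟨0, Polynomial.C (ev τ (0 : (EuclideanSpace ℝ (Fin n)))), fun ξ => ?_⟩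
    rw [hall ξ, Polynomial.eval_C]
  push Not at hall
  obtain ⟨w, hw⟩ := hall
  obtain ⟨u, ρ, hu, hρ0, hρ, hxu⟩ : ∃ (u : (EuclideanSpace ℝ (Fin n))) (ρ : ℝ), ‖u‖ = 1 ∧ 0 ≤ ρ ∧ ρ ≤ r ∧ x = ρ • u := by
    by_cases hx0 : x = 0
    · refine ⟨‖w‖⁻¹ • w, 0, ?_, le_rfl, hr.le, by rw [hx0, zero_smul]⟩
      rw [norm_smul, norm_inv, norm_norm, inv_mul_cancel₀ (norm_ne_zero_iff.2 hw)]
    · have hxn := norm_ne_zero_iff.2 hx0
      refine ⟨‖x‖⁻¹ • x, ‖x‖, ?_, norm_nonneg _, by simpa using hx, ?_⟩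
      · rw [norm_smul, norm_inv, norm_norm, inv_mul_cancel₀ hxn]
      · rw [smul_smul, mul_inv_cancel₀ hxn, one_smul]
  rw [hxu] at hne h
  have hball : ∀ ξ ∈ Metric.closedBall (0 : (EuclideanSpace ℝ (Fin n))) r, ev τ ξ = ev τ ((inner ℝ u ξ : ℝ) • u) := by
    intro ξ hξ
    set c := (inner ℝ u ξ : ℝ) with hc
    set v := ξ - c • u with hv
    have huv : inner ℝ u v = 0 := by
      rw [hv, inner_sub_right, inner_smul_right, real_inner_self_eq_norm_sq, hu, hc]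
      ring
    have hcK : c • u ∈ Metric.closedBall (0 : (EuclideanSpace ℝ (Fin n))) r := by
      rw [mem_closedBall_zero_iff, norm_smul, hu, mul_one, Real.norm_eq_abs]
      have := abs_real_inner_le_norm u ξ
      rw [hu, one_mul] at this
      exact this.trans (mem_closedBall_zero_iff.1 hξ)
    by_cases hv0 : v = 0
    · rw [← sub_eq_zero.1 (hv ▸ hv0 : ξ - c • u = 0)]
    · have hvn : 0 < ‖v‖ := norm_pos_iff.2 hv0
      have e1 : c • u + ‖v‖ • (‖v‖⁻¹ • v) = ξ := by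
        rw [smul_smul, mul_inv_cancel₀ hvn.ne', one_smul, hv]; abel
      have := shift_inv τ r ρ hr hρ0 hρ u (‖v‖⁻¹ • v) hu
        (by rw [norm_smul, norm_inv, norm_norm, inv_mul_cancel₀ hvn.ne'])
        (by rw [inner_smul_right, huv, mul_zero]) hne h (c • u) ‖v‖ hvn hcK
        (by rw [e1]; exact hξ)
      rw [e1] at this
      exact this
  refine ⟨u, ray τ u, fun ξ => ?_⟩
  rw [ray_eval]
  refine eq_of_ball τ r hr ξ _ fun z hz hz2 => ?_
  rw [hball (z • ξ) (by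
    rw [mem_closedBall_zero_iff, norm_smul, Real.norm_of_nonneg hz.le]; exact hz2),
    inner_smul_right, smul_smul]

end Pool.Agent.X205.BE
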