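import Mathlib

/-! States on bounded continuous functions and exponentials. -/

set_option autoImplicit false

open BoundedContinuousFunction
open scoped BoundedContinuousFunction RealInnerProductSpace

namespace Pool.Agent.X205.BE

section Pos

variable {X : Type*} [TopologicalSpace X]

theorem re_nonneg (L : StrongDual ℂ (X →ᵇ ℂ)) (hL : ‖L‖ ≤ 1) (h1 : L 1 = 1) (f : X →ᵇ ℂ)
    (hf : ∀ x, 0 ≤ (f x).re) : 0 ≤ (L f).re := by
  by_contra hneg
  push Not at hneg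
  set a := -(L f).re with ha
  have ha0 : 0 < a := by rw [ha]; linarith
  set B := ‖f‖ with hB
  have hB0 : 0 ≤ B := norm_nonneg _
  set ε := a / (B ^ 2 + 1) with hε
  have hε0 : 0 < ε := by positivity
  have hn : ‖(1 : X →ᵇ ℂ) - (ε : ℂ) • f‖ ≤ Real.sqrt (1 + ε ^ 2 * B ^ 2) := by
    rw [BoundedContinuousFunction.norm_le (Real.sqrt_nonneg _)]
    intro x
    have e1 : ((1 : X →ᵇ ℂ) - (ε : ℂ) • f) x = 1 - (ε : ℂ) * f x := rfl
    rw [e1]
    refine Real.le_sqrt_of_sq_le ?_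
    have hfx : ‖f x‖ ≤ B := f.norm_coe_le_norm x
    have e2 : ‖(1 : ℂ) - (ε : ℂ) * f x‖ ^ 2 = 1 - 2 * ε * (f x).re + ε ^ 2 * ‖f x‖ ^ 2 := by
      rw [← Complex.normSq_eq_norm_sq, ← Complex.normSq_eq_norm_sq, Complex.normSq_apply,
        Complex.normSq_apply]
      simp only [Complex.sub_re, Complex.one_re, Complex.mul_re, Complex.ofReal_re,
        Complex.ofReal_im, zero_mul, sub_zero, Complex.sub_im, Complex.one_im, Complex.mul_im,
        add_zero, zero_sub]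
      ring
    rw [e2]
    have h3 : ‖f x‖ ^ 2 ≤ B ^ 2 := pow_le_pow_left₀ (norm_nonneg _) hfx 2
    have h4 := hf x
    have h5 : 0 ≤ 2 * ε * (f x).re := by positivity
    nlinarith [sq_nonneg ε]
  have h2 : ‖L (1 - (ε : ℂ) • f)‖ ≤ Real.sqrt (1 + ε ^ 2 * B ^ 2) := by
    calc ‖L (1 - (ε : ℂ) • f)‖ ≤ ‖L‖ * ‖1 - (ε : ℂ) • f‖ := L.le_opNorm _
      _ ≤ 1 * Real.sqrt (1 + ε ^ 2 * B ^ 2) :=
          mul_le_mul hL hn (norm_nonneg _) zero_le_one
      _ = _ := one_mul _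
  have h3 : (L (1 - (ε : ℂ) • f)).re = 1 + ε * a := by
    rw [map_sub, map_smul, h1, ha]
    simp
    ring
  have h4 : 1 + ε * a ≤ Real.sqrt (1 + ε ^ 2 * B ^ 2) := by
    rw [← h3]; exact (Complex.re_le_norm _).trans h2
  have h5 : (1 + ε * a) ^ 2 ≤ 1 + ε ^ 2 * B ^ 2 := by
    rw [← Real.sq_sqrt (show 0 ≤ 1 + ε ^ 2 * B ^ 2 by positivity)]
    exact pow_le_pow_left₀ (by positivity) h4 2
  have h6 : ε * (B ^ 2 + 1) = a := by rw [hε]; field_simp
  nlinarith [mul_pos hε0 ha0, sq_nonneg (ε * a)]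

theorem re_mono (L : StrongDual ℂ (X →ᵇ ℂ)) (hL : ‖L‖ ≤ 1) (h1 : L 1 = 1) (f g : X →ᵇ ℂ)
    (hf : ∀ x, (f x).re ≤ (g x).re) : (L f).re ≤ (L g).re := by
  have := re_nonneg L hL h1 (g - f) (fun x => by
    have : (g - f) x = g x - f x := rfl
    rw [this, Complex.sub_re]; linarith [hf x])
  rw [map_sub, Complex.sub_re] at this
  linarith

theorem re_congr (L : StrongDual ℂ (X →ᵇ ℂ)) (hL : ‖L‖ ≤ 1) (h1 : L 1 = 1) (f g : X →ᵇ ℂ)
    (hf : ∀ x, (f x).re = (g x).re) : (L f).re = (L g).re :=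
  le_antisymm (re_mono L hL h1 f g fun x => (hf x).le) (re_mono L hL h1 g f fun x => (hf x).ge)

end Pos

section Exp

variable {E : Type*} [NormedAddCommGroup E] [InnerProductSpace ℝ E]

/-- The exponential x ↦ exp(i⟨x,ξ⟩). -/
noncomputable def ex (ξ : E) : E →ᵇ ℂ :=
  BoundedContinuousFunction.ofNormedAddCommGroup
    (fun x => Complex.exp (((inner ℝ x ξ : ℝ) : ℂ) * Complex.I)) (by fun_prop) 1
    (fun x => by rw [Complex.norm_exp_ofReal_mul_I])

theorem ex_apply (ξ x : E) : ex ξ x = Complex.exp (((inner ℝ x ξ : ℝ) : ℂ) * Complex.I) := rfl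

theorem ex_norm_apply (ξ x : E) : ‖ex ξ x‖ = 1 := by
  rw [ex_apply, Complex.norm_exp_ofReal_mul_I]

theorem ex_re (ξ x : E) : (ex ξ x).re = Real.cos (inner ℝ x ξ) := by
  rw [ex_apply, Complex.exp_ofReal_mul_I_re]

theorem ex_zero : ex (0 : E) = 1 := by
  ext x
  rw [ex_apply, inner_zero_right]
  simp

theorem ex_add (ξ ζ : E) : ex (ξ + ζ) = ex ξ * ex ζ := by
  ext x
  have : (ex ξ * ex ζ) x = ex ξ x * ex ζ x := rfl
  rw [this, ex_apply, ex_apply, ex_apply, inner_add_right, ← Complex.exp_add]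
  congr 1
  push_cast; ring

/-- The function 2 - 2cos(η⟨x,t⟩). -/
noncomputable def W (t : E) (η : ℝ) : E →ᵇ ℂ := (1 - ex (η • t)) + (1 - ex (-(η • t)))

theorem W_apply (t : E) (η : ℝ) (x : E) :
    W t η x = ((2 - 2 * Real.cos (η * inner ℝ x t) : ℝ) : ℂ) := by
  have : W t η x = (1 - ex (η • t) x) + (1 - ex (-(η • t)) x) := rfl
  rw [this, ex_apply, ex_apply, inner_neg_right, inner_smul_right]
  push_cast
  rw [Complex.cos]
  ring_nf

/-- The real value. -/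
noncomputable def wv (t : E) (η : ℝ) (x : E) : ℝ := 2 - 2 * Real.cos (η * inner ℝ x t)

theorem wv_nonneg (t : E) (η : ℝ) (x : E) : 0 ≤ wv t η x := by
  unfold wv; linarith [Real.cos_le_one (η * inner ℝ x t)]

theorem wv_le (t : E) (η : ℝ) (x : E) : wv t η x ≤ 4 := by
  unfold wv; linarith [Real.neg_one_le_cos (η * inner ℝ x t)]

theorem W_pow_apply (t : E) (η : ℝ) (j : ℕ) (x : E) :
    (W t η ^ j) x = ((wv t η x ^ j : ℝ) : ℂ) := by
  have : (W t η ^ j) x = (W t η x) ^ j := by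
    simp
  rw [this, W_apply]
  push_cast [wv]
  rfl

theorem W_pow_mul_re (t : E) (η : ℝ) (j : ℕ) (f : E →ᵇ ℂ) (x : E) :
    ((W t η ^ j * f) x).re = wv t η x ^ j * (f x).re := by
  have : (W t η ^ j * f) x = (W t η ^ j) x * f x := rfl
  rw [this, W_pow_apply, Complex.re_ofReal_mul]

theorem wv_two (t : E) (η : ℝ) (x : E) : wv t (2 * η) x = wv t η x * (4 - wv t η x) := by
  unfold wv
  rw [show 2 * η * inner ℝ x t = 2 * (η * inner ℝ x t) by ring, Real.cos_two_mul]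
  ring

theorem wv_two_pow (t : E) (η : ℝ) (x : E) (j : ℕ) :
    wv t (2 * η) x ^ (j + 1) ≤ 4 ^ (j + 1) * wv t η x ^ (j + 1) - 4 ^ j * wv t η x ^ (j + 2) := by
  rw [wv_two, mul_pow]
  have h0 := wv_nonneg t η x
  have h4 := wv_le t η x
  have h1 : (4 - wv t η x) ^ (j + 1) ≤ 4 ^ j * (4 - wv t η x) := by
    rw [pow_succ]
    exact mul_le_mul_of_nonneg_right (pow_le_pow_left₀ (by linarith) (by linarith) j)
      (by linarith)
  calc wv t η x ^ (j + 1) * (4 - wv t η x) ^ (j + 1)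
      ≤ wv t η x ^ (j + 1) * (4 ^ j * (4 - wv t η x)) :=
        mul_le_mul_of_nonneg_left h1 (pow_nonneg h0 _)
    _ = _ := by ring

theorem wv_two_pow_le (t : E) (η : ℝ) (x : E) (j : ℕ) :
    wv t (2 * η) x ^ j ≤ 4 ^ j * wv t η x ^ j := by
  rw [wv_two, mul_pow, mul_comm (4 ^ j)]
  have h0 := wv_nonneg t η x
  have h4 := wv_le t η x
  exact mul_le_mul_of_nonneg_left (pow_le_pow_left₀ (by linarith) (by linarith) j)
    (pow_nonneg h0 _)

end Exp

end Pool.Agent.X205.BE
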