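import Pool.Agent.X205.BE.Diff
import Pool.Agent.X205.BE.Pos

/-! The averaging argument. -/

set_option autoImplicit false

open BoundedContinuousFunction
open scoped BoundedContinuousFunction RealInnerProductSpace

namespace Pool.Agent.X205.BE

variable {E : Type*} [NormedAddCommGroup E] [InnerProductSpace ℝ E]

theorem L_diff (L : StrongDual ℂ (E →ᵇ ℂ)) (t v : E) (η : ℝ) (j : ℕ) :
    ∀ y : ℝ, L (W t η ^ j * ex (v + y • t)) = (dd η)^[j] (fun y => L (ex (v + y • t))) y := by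
  induction j with
  | zero => intro y; simp
  | succ j ih =>
    intro y
    rw [Function.iterate_succ_apply', dd_apply, ← ih, ← ih, ← ih, ← smul_eq_mul (2 : ℂ),
      ← map_smul, ← map_sub, ← map_sub]
    congr 1
    rw [pow_succ, mul_assoc, ← mul_smul_comm, ← mul_sub, ← mul_sub]
    congr 1
    unfold W
    have e1 : v + (y + η) • t = (v + y • t) + η • t := by rw [add_smul]; abel
    have e2 : v + (y - η) • t = (v + y • t) + -(η • t) := by rw [sub_smul]; abel
    rw [e1, e2, ex_add _ (η • t), ex_add _ (-(η • t)), two_smul]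
    ring

theorem W_pow_ex_symm (L : StrongDual ℂ (E →ᵇ ℂ)) (hL : ‖L‖ ≤ 1) (h1 : L 1 = 1) (t v : E)
    (η : ℝ) (j : ℕ) : (L (W t η ^ j * ex (-v))).re = (L (W t η ^ j * ex v)).re := by
  refine re_congr L hL h1 _ _ fun x => ?_
  rw [W_pow_mul_re, W_pow_mul_re, ex_re, ex_re, inner_neg_right, Real.cos_neg]

/-- The average G. -/
noncomputable def G (u : E) (ε : ℝ) (N : ℕ) : E →ᵇ ℂ :=
  ((1 / (N : ℂ) ^ 2 : ℂ)) • ∑ k ∈ Finset.range N, ∑ l ∈ Finset.range N,
    ex ((((k : ℝ) - l) * ε) • u)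

theorem G_re (u : E) (ε : ℝ) (N : ℕ) (x : E) :
    (G u ε N x).re = 1 / (N : ℝ) ^ 2 *
      ‖∑ k ∈ Finset.range N, ex (((k : ℝ) * ε) • u) x‖ ^ 2 := by
  have h1 : G u ε N x = (1 / (N : ℂ) ^ 2) * ∑ k ∈ Finset.range N, ∑ l ∈ Finset.range N,
      ex ((((k : ℝ) - l) * ε) • u) x := by
    unfold G
    rw [BoundedContinuousFunction.coe_smul]
    simp [BoundedContinuousFunction.coe_sum]
  have h2 : ∑ k ∈ Finset.range N, ∑ l ∈ Finset.range N, ex ((((k : ℝ) - l) * ε) • u) x =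
      (∑ k ∈ Finset.range N, ex (((k : ℝ) * ε) • u) x) *
        (starRingEnd ℂ) (∑ k ∈ Finset.range N, ex (((k : ℝ) * ε) • u) x) := by
    rw [map_sum, Finset.sum_mul_sum]
    refine Finset.sum_congr rfl fun k _ => Finset.sum_congr rfl fun l _ => ?_
    rw [ex_apply, ex_apply, ex_apply, ← Complex.exp_conj, ← Complex.exp_add]
    congr 1
    rw [map_mul, Complex.conj_ofReal, Complex.conj_I, inner_smul_right, inner_smul_right,
      inner_smul_right]
    push_cast
    ring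
  rw [h1, h2, Complex.mul_conj, Complex.normSq_eq_norm_sq]
  rw [show (1 / (N : ℂ) ^ 2) = ((1 / (N : ℝ) ^ 2 : ℝ) : ℂ) by push_cast; rfl,
    ← Complex.ofReal_mul, Complex.ofReal_re]

theorem G_nonneg (u : E) (ε : ℝ) (N : ℕ) (x : E) : 0 ≤ (G u ε N x).re := by
  rw [G_re]; positivity

theorem G_le (u : E) (ε : ℝ) (N : ℕ) (hN : 1 ≤ N) (x : E) : (G u ε N x).re ≤ 1 := by
  rw [G_re]
  have hN' : (0 : ℝ) < N := by exact_mod_cast hN
  have h1 : ‖∑ k ∈ Finset.range N, ex (((k : ℝ) * ε) • u) x‖ ≤ N := by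
    refine (norm_sum_le _ _).trans ?_
    simp [ex_norm_apply]
  have h2 : ‖∑ k ∈ Finset.range N, ex (((k : ℝ) * ε) • u) x‖ ^ 2 ≤ (N : ℝ) ^ 2 :=
    pow_le_pow_left₀ (norm_nonneg _) h1 2
  rw [one_div, inv_mul_le_iff₀ (by positivity), mul_one]
  exact h2

theorem L_mul_G (L : StrongDual ℂ (E →ᵇ ℂ)) (f : E →ᵇ ℂ) (u : E) (ε : ℝ) (N : ℕ) :
    (L (f * G u ε N)).re = 1 / (N : ℝ) ^ 2 * ∑ k ∈ Finset.range N, ∑ l ∈ Finset.range N,
      (L (f * ex ((((k : ℝ) - l) * ε) • u))).re := by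
  unfold G
  rw [mul_smul_comm, map_smul, Finset.mul_sum, map_sum,
    show (1 / (N : ℂ) ^ 2) = ((1 / (N : ℝ) ^ 2 : ℝ) : ℂ) by push_cast; rfl, smul_eq_mul,
    Complex.re_ofReal_mul, Complex.re_sum]
  congr 1
  refine Finset.sum_congr rfl fun k _ => ?_
  rw [Finset.mul_sum, map_sum, Complex.re_sum]

theorem avg_bound (N : ℕ) (hN : 1 ≤ N) (S : ℝ → ℝ) (ε A K : ℝ) (hA : S 0 ≤ A) (hK : 0 ≤ K)
    (hA0 : 0 ≤ A)
    (hS : ∀ z, S (-z) = S z) (h : ∀ d : ℕ, 1 ≤ d → d < N → S (-(d * ε)) ≤ K) :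
    1 / (N : ℝ) ^ 2 * ∑ k ∈ Finset.range N, ∑ l ∈ Finset.range N, S (((k : ℝ) - l) * ε) ≤
      A / N + K := by
  have hN' : (0 : ℝ) < N := by exact_mod_cast hN
  have h1 : ∀ k ∈ Finset.range N, ∑ l ∈ Finset.range N, S (((k : ℝ) - l) * ε) ≤ A + N * K := by
    intro k hk
    calc ∑ l ∈ Finset.range N, S (((k : ℝ) - l) * ε)
        ≤ ∑ l ∈ Finset.range N, ((if l = k then A else 0) + K) := by
          refine Finset.sum_le_sum fun l hl => ?_
          have hk' := Finset.mem_range.1 hk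
          have hl' := Finset.mem_range.1 hl
          rcases lt_trichotomy l k with hlt | heq | hgt
          · rw [if_neg hlt.ne, zero_add]
            have := h (k - l) (by omega) (by omega)
            rw [hS] at this
            rw [show ((k : ℝ) - l) = ((k - l : ℕ) : ℝ) by rw [Nat.cast_sub hlt.le]]
            exact this
          · subst heq
            rw [if_pos rfl, sub_self, zero_mul]
            linarith
          · rw [if_neg hgt.ne', zero_add]
            have := h (l - k) (by omega) (by omega)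
            rw [show ((k : ℝ) - l) * ε = -(((l - k : ℕ) : ℝ) * ε) by
              rw [Nat.cast_sub hgt.le]; ring]
            exact this
      _ = A + N * K := by
          rw [Finset.sum_add_distrib, Finset.sum_ite_eq' (Finset.range N) k, if_pos hk]
          simp
  calc 1 / (N : ℝ) ^ 2 * ∑ k ∈ Finset.range N, ∑ l ∈ Finset.range N, S (((k : ℝ) - l) * ε)
      ≤ 1 / (N : ℝ) ^ 2 * ∑ k ∈ Finset.range N, (A + N * K) :=
        mul_le_mul_of_nonneg_left (Finset.sum_le_sum h1) (by positivity)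
    _ = A / N + K := by
        rw [Finset.sum_const, Finset.card_range, nsmul_eq_mul]
        field_simp

theorem one_sub_G (L : StrongDual ℂ (E →ᵇ ℂ)) (hL : ‖L‖ ≤ 1) (h1 : L 1 = 1) (u : E) (ε : ℝ)
    (N : ℕ) (hN : 1 ≤ N) (ω : ℝ) (hω0 : 0 ≤ ω)
    (h : ∀ d : ℕ, 1 ≤ d → d < N → 1 - (L (ex (-((d * ε) • u)))).re ≤ ω) :
    1 - (L (G u ε N)).re ≤ ω := by
  have hN' : (0 : ℝ) < N := by exact_mod_cast hN
  have e1 := L_mul_G L 1 u ε N
  rw [one_mul] at e1
  have hb := avg_bound N hN (fun z => 1 - (L (1 * ex (z • u))).re) ε 0 ω (by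
      simp only [zero_smul, ex_zero, mul_one, h1, Complex.one_re, sub_self, le_refl]) hω0 le_rfl
    (fun z => by
      have := W_pow_ex_symm L hL h1 (0 : E) (z • u) 0 0
      rw [pow_zero] at this
      rw [neg_smul, this])
    (fun d hd hdN => by
      rw [one_mul, neg_smul]
      exact h d hd hdN)
  rw [e1]
  have e2 : 1 / (N : ℝ) ^ 2 * ∑ k ∈ Finset.range N, ∑ l ∈ Finset.range N,
      (1 - (L (1 * ex ((((k : ℝ) - l) * ε) • u))).re) = 1 - 1 / (N : ℝ) ^ 2 *
      ∑ k ∈ Finset.range N, ∑ l ∈ Finset.range N,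
        (L (1 * ex ((((k : ℝ) - l) * ε) • u))).re := by
    simp only [Finset.sum_sub_distrib, Finset.sum_const, Finset.card_range, nsmul_eq_mul, mul_one]
    rw [mul_sub]
    congr 1
    field_simp
  rw [e2] at hb
  simpa using hb

end Pool.Agent.X205.BE
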