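import Pool.Agent.X205.BE.App

/-! Bernstein spaces B(K) and the operators τ(D). -/

set_option autoImplicit false

open BoundedContinuousFunction Filter Topology MeasureTheory FourierTransform
open scoped BoundedContinuousFunction RealInnerProductSpace SchwartzMap

namespace Pool.Agent.X205.BE

variable {n : ℕ}


/-- D_k f = -i ∂f/∂x_k. -/
noncomputable def Dk (k : Fin n) (f : (EuclideanSpace ℝ (Fin n)) → ℂ) : (EuclideanSpace ℝ (Fin n)) → ℂ :=
  fun x => -Complex.I * fderiv ℝ f x (EuclideanSpace.single k 1)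

/-- D^α f. -/
noncomputable def Dmon (α : Fin n →₀ ℕ) (f : (EuclideanSpace ℝ (Fin n)) → ℂ) : (EuclideanSpace ℝ (Fin n)) → ℂ :=
  (List.finRange n).foldr (fun k g => (Dk k)^[α k] g) f

/-- τ(D) f. -/
noncomputable def tauD (τ : MvPolynomial (Fin n) ℂ) (f : (EuclideanSpace ℝ (Fin n)) → ℂ) : (EuclideanSpace ℝ (Fin n)) → ℂ :=
  fun x => ∑ α ∈ τ.support, τ.coeff α * Dmon α f x

/-- The Bernstein space B(K). -/
structure InB (K : Set (EuclideanSpace ℝ (Fin n))) (f : (EuclideanSpace ℝ (Fin n)) → ℂ) : Prop where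
  smooth : ContDiff ℝ ((⊤ : ℕ∞) : WithTop ℕ∞) f
  bounded : ∃ C : ℝ, ∀ x, ‖f x‖ ≤ C
  spectrum : ∀ g : 𝓢((EuclideanSpace ℝ (Fin n)), ℂ), (∃ U : Set (EuclideanSpace ℝ (Fin n)), IsOpen U ∧ K ⊆ U ∧ ∀ ξ ∈ U, g ξ = 0) →
    ∫ x, f x * (∫ ξ, Complex.exp (-((inner ℝ x ξ : ℝ) * Complex.I)) * g ξ) = 0

/-- C is the norm of τ(D) on B(K). -/
def IsNorm (τ : MvPolynomial (Fin n) ℂ) (K : Set (EuclideanSpace ℝ (Fin n))) (C : ℝ) : Prop :=
  IsLeast {C : ℝ | 0 ≤ C ∧ ∀ f : (EuclideanSpace ℝ (Fin n)) → ℂ, InB K f → ∀ A : ℝ, (∀ x, ‖f x‖ ≤ A) →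
    ∀ x, ‖tauD τ f x‖ ≤ C * A} C

/-- Trigonometric polynomials. -/
noncomputable def tp {ι : Type*} (s : Finset ι) (a : ι → ℂ) (ξ : ι → (EuclideanSpace ℝ (Fin n))) : (EuclideanSpace ℝ (Fin n)) → ℂ :=
  fun x => ∑ i ∈ s, a i * ex (ξ i) x

theorem ex_hasFDerivAt (ξ x : (EuclideanSpace ℝ (Fin n))) :
    HasFDerivAt (fun x => ex ξ x)
      ((ex ξ x) • (Complex.I • (Complex.ofRealCLM.comp (innerSL ℝ ξ)))) x := by
  have h1 : (fun x => ex ξ x) = fun x =>
      Complex.exp ((Complex.I • (Complex.ofRealCLM.comp (innerSL ℝ ξ))) x) := by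
    funext y
    rw [ex_apply]
    congr 1
    simp [real_inner_comm, mul_comm]
  have h2 : ex ξ x = Complex.exp ((Complex.I • (Complex.ofRealCLM.comp (innerSL ℝ ξ))) x) :=
    congrFun h1 x
  rw [h1, h2]
  exact ((Complex.I • (Complex.ofRealCLM.comp (innerSL ℝ ξ))).hasFDerivAt).cexp

theorem Dk_tp {ι : Type*} (s : Finset ι) (a : ι → ℂ) (ξ : ι → (EuclideanSpace ℝ (Fin n))) (k : Fin n) :
    Dk k (tp s a ξ) = tp s (fun i => a i * ((ξ i k : ℝ) : ℂ)) ξ := by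
  funext x
  unfold Dk tp
  have h1 : HasFDerivAt (fun x => ∑ i ∈ s, a i * ex (ξ i) x)
      (∑ i ∈ s, a i • ((ex (ξ i) x) • (Complex.I •
        (Complex.ofRealCLM.comp (innerSL ℝ (ξ i)))))) x :=
    HasFDerivAt.fun_sum fun i _ => (ex_hasFDerivAt (ξ i) x).const_mul (a i)
  rw [h1.fderiv, ContinuousLinearMap.sum_apply, Finset.mul_sum]
  refine Finset.sum_congr rfl fun i _ => ?_
  have h2 : (inner ℝ (ξ i) (EuclideanSpace.single k (1 : ℝ)) : ℝ) = ξ i k := by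
    rw [EuclideanSpace.inner_single_right]; simp
  simp only [ContinuousLinearMap.smul_apply, ContinuousLinearMap.comp_apply, innerSL_apply_apply,
    h2, Complex.ofRealCLM_apply, smul_eq_mul]
  ring_nf
  rw [Complex.I_sq]
  ring

theorem Dk_iter_tp {ι : Type*} (s : Finset ι) (ξ : ι → (EuclideanSpace ℝ (Fin n))) (k : Fin n) (m : ℕ) :
    ∀ a : ι → ℂ, (Dk k)^[m] (tp s a ξ) = tp s (fun i => a i * ((ξ i k : ℝ) : ℂ) ^ m) ξ := by
  induction m with
  | zero => intro a; simp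
  | succ m ih =>
    intro a
    rw [Function.iterate_succ_apply, Dk_tp, ih]
    congr 1
    funext i
    rw [pow_succ]; ring

theorem Dmon_tp {ι : Type*} (s : Finset ι) (a : ι → ℂ) (ξ : ι → (EuclideanSpace ℝ (Fin n))) (α : Fin n →₀ ℕ) :
    Dmon α (tp s a ξ) = tp s (fun i => a i * ∏ k, ((ξ i k : ℝ) : ℂ) ^ α k) ξ := by
  have h : ∀ l : List (Fin n), l.foldr (fun k g => (Dk k)^[α k] g) (tp s a ξ) =
      tp s (fun i => a i * (l.map fun k => ((ξ i k : ℝ) : ℂ) ^ α k).prod) ξ := by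
    intro l
    induction l with
    | nil => simp
    | cons k l ih =>
      rw [List.foldr_cons, ih, Dk_iter_tp]
      congr 1
      funext i
      rw [List.map_cons, List.prod_cons]; ring
  unfold Dmon
  rw [h]
  simp only [Fin.prod_univ_def]

theorem tauD_tp {ι : Type*} (τ : MvPolynomial (Fin n) ℂ) (s : Finset ι) (a : ι → ℂ)
    (ξ : ι → (EuclideanSpace ℝ (Fin n))) (x : (EuclideanSpace ℝ (Fin n))) : tauD τ (tp s a ξ) x = ∑ i ∈ s, a i * ev τ (ξ i) * ex (ξ i) x := by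
  unfold tauD
  simp_rw [Dmon_tp]
  unfold tp
  simp_rw [Finset.mul_sum]
  rw [Finset.sum_comm]
  refine Finset.sum_congr rfl fun i _ => ?_
  unfold ev
  rw [MvPolynomial.eval_eq', Finset.mul_sum, Finset.sum_mul]
  refine Finset.sum_congr rfl fun α _ => ?_
  ring

theorem ex_spectrum (ξ : (EuclideanSpace ℝ (Fin n))) (g : 𝓢((EuclideanSpace ℝ (Fin n)), ℂ)) (hg : g ξ = 0) :
    ∫ x, ex ξ x * (∫ ζ, Complex.exp (-((inner ℝ x ζ : ℝ) * Complex.I)) * g ζ) = 0 := by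
  have h1 : ∀ x : (EuclideanSpace ℝ (Fin n)), (∫ ζ, Complex.exp (-((inner ℝ x ζ : ℝ) * Complex.I)) * g ζ) =
      (𝓕 g) ((2 * Real.pi)⁻¹ • x) := by
    intro x
    rw [SchwartzMap.fourier_coe, Real.fourier_eq']
    refine integral_congr_ae (Eventually.of_forall fun ζ => ?_)
    simp only [smul_eq_mul]
    congr 2
    rw [inner_smul_right, real_inner_comm]
    push_cast
    field_simp
  simp_rw [h1]
  set F : (EuclideanSpace ℝ (Fin n)) → ℂ := fun y => ex ξ ((2 * Real.pi) • y) * (𝓕 g : 𝓢((EuclideanSpace ℝ (Fin n)), ℂ)) y with hF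
  have h2 : ∫ x : (EuclideanSpace ℝ (Fin n)), ex ξ x * (𝓕 g : 𝓢((EuclideanSpace ℝ (Fin n)), ℂ)) ((2 * Real.pi)⁻¹ • x) =
      ∫ x : (EuclideanSpace ℝ (Fin n)), F ((2 * Real.pi)⁻¹ • x) := by
    refine integral_congr_ae (Eventually.of_forall fun x => ?_)
    simp only [hF]
    rw [smul_smul, mul_inv_cancel₀ (by positivity), one_smul]
  rw [h2, Measure.integral_comp_smul volume F]
  have h3 : ∫ y : (EuclideanSpace ℝ (Fin n)), F y = (𝓕⁻ (𝓕 g : 𝓢((EuclideanSpace ℝ (Fin n)), ℂ)) : 𝓢((EuclideanSpace ℝ (Fin n)), ℂ)) ξ := by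
    rw [SchwartzMap.fourierInv_coe, Real.fourierInv_eq']
    refine integral_congr_ae (Eventually.of_forall fun y => ?_)
    simp only [smul_eq_mul, hF]
    congr 1
    rw [ex_apply, inner_smul_left]
    simp
  rw [h3, fourierInv_fourier_eq, hg, smul_zero]

theorem ex_integrable (ξ : (EuclideanSpace ℝ (Fin n))) (g : 𝓢((EuclideanSpace ℝ (Fin n)), ℂ)) : Integrable
    (fun x : (EuclideanSpace ℝ (Fin n)) => ex ξ x * (∫ ζ, Complex.exp (-((inner ℝ x ζ : ℝ) * Complex.I)) * g ζ)) := by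
  have h1 : ∀ x : (EuclideanSpace ℝ (Fin n)), (∫ ζ, Complex.exp (-((inner ℝ x ζ : ℝ) * Complex.I)) * g ζ) =
      (𝓕 g) ((2 * Real.pi)⁻¹ • x) := by
    intro x
    rw [SchwartzMap.fourier_coe, Real.fourier_eq']
    refine integral_congr_ae (Eventually.of_forall fun ζ => ?_)
    simp only [smul_eq_mul]
    congr 2
    rw [inner_smul_right, real_inner_comm]
    push_cast
    field_simp
  simp_rw [h1]
  have h2 : Integrable (fun x : (EuclideanSpace ℝ (Fin n)) => (𝓕 g) ((2 * Real.pi)⁻¹ • x)) :=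
    ((𝓕 g).integrable (μ := volume)).comp_smul (by positivity)
  exact h2.bdd_mul (ex ξ).continuous.aestronglyMeasurable
    (Eventually.of_forall fun x => (ex_norm_apply ξ x).le)

theorem tp_inB {ι : Type*} (K : Set (EuclideanSpace ℝ (Fin n))) (s : Finset ι) (a : ι → ℂ) (ξ : ι → (EuclideanSpace ℝ (Fin n)))
    (h : ∀ i ∈ s, ξ i ∈ K) : InB K (tp s a ξ) := by
  refine ⟨?_, ⟨∑ i ∈ s, ‖a i‖, fun x => ?_⟩, fun g hg => ?_⟩
  · unfold tp
    refine ContDiff.sum fun i _ => contDiff_const.mul ?_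
    have h1 : (⇑(ex (ξ i)) : (EuclideanSpace ℝ (Fin n)) → ℂ) = fun x =>
        Complex.exp ((Complex.I • (Complex.ofRealCLM.comp (innerSL ℝ (ξ i)))) x) := by
      funext y
      rw [ex_apply]
      congr 1
      simp [real_inner_comm, mul_comm]
    rw [h1]
    exact (Complex.I • (Complex.ofRealCLM.comp (innerSL ℝ (ξ i)))).contDiff.cexp
  · refine (norm_sum_le _ _).trans (Finset.sum_le_sum fun i _ => ?_)
    rw [norm_mul, ex_norm_apply, mul_one]
  · obtain ⟨U, -, hKU, hU⟩ := hg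
    have h1 : (fun x : (EuclideanSpace ℝ (Fin n)) => tp s a ξ x *
        (∫ ζ, Complex.exp (-((inner ℝ x ζ : ℝ) * Complex.I)) * g ζ)) = fun x =>
        ∑ i ∈ s, a i * (ex (ξ i) x *
          (∫ ζ, Complex.exp (-((inner ℝ x ζ : ℝ) * Complex.I)) * g ζ)) := by
      funext x
      unfold tp
      rw [Finset.sum_mul]
      exact Finset.sum_congr rfl fun i _ => by ring
    rw [h1, integral_finset_sum _ fun i _ => (ex_integrable (ξ i) g).const_mul (a i)]
    refine Finset.sum_eq_zero fun i hi => ?_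
    rw [integral_const_mul, ex_spectrum (ξ i) g (hU _ (hKU (h i hi))), mul_zero]

theorem trig_of_norm (τ : MvPolynomial (Fin n) ℂ) (K : Set (EuclideanSpace ℝ (Fin n))) (C : ℝ) (h : IsNorm τ K C) :
    TrigIneq τ K C := by
  intro c
  have h1 := tp_inB K c.support c (fun ξ : K => ξ.1) (fun i _ => i.2)
  have h2 : (c.sum fun ξ a => a • ex ξ.1 : (EuclideanSpace ℝ (Fin n)) →ᵇ ℂ) = ∑ i ∈ c.support, c i • ex i.1 := rfl
  have h3 : ∀ x, tp c.support c (fun ξ : K => ξ.1) x =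
      (c.sum fun ξ a => a • ex ξ.1 : (EuclideanSpace ℝ (Fin n)) →ᵇ ℂ) x := by
    intro x
    rw [h2]
    unfold tp
    simp [BoundedContinuousFunction.coe_sum]
  have h4 := h.1.2 _ h1 ‖(c.sum fun ξ a => a • ex ξ.1 : (EuclideanSpace ℝ (Fin n)) →ᵇ ℂ)‖ (fun x => by
    rw [h3]; exact BoundedContinuousFunction.norm_coe_le_norm _ x) 0
  rw [tauD_tp] at h4
  have h5 : ∑ i ∈ c.support, c i * ev τ i.1 * ex i.1 (0 : (EuclideanSpace ℝ (Fin n))) = c.sum fun ξ a => a * ev τ ξ.1 := by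
    unfold Finsupp.sum
    refine Finset.sum_congr rfl fun i _ => ?_
    rw [ex_apply, inner_zero_left]
    simp
  rw [h5] at h4
  exact h4

end Pool.Agent.X205.BE
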