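import Pool.Agent.X205.BE.Avg

/-! The core theorem: tangential variables vanish. -/

set_option autoImplicit false

open BoundedContinuousFunction Filter Topology
open scoped BoundedContinuousFunction RealInnerProductSpace

namespace Pool.Agent.X205.BE

variable {E : Type*} [NormedAddCommGroup E] [InnerProductSpace ℝ E]

/-- The data: a state L whose Fourier transform is a polynomial near the boundary point. -/
structure Dat (L : StrongDual ℂ (E →ᵇ ℂ)) (u t : E) (r : ℝ) (D : ℕ) (B : ℝ) : Prop where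
  norm_le : ‖L‖ ≤ 1
  one : L 1 = 1
  rpos : 0 < r
  poly : ∀ s, 0 ≤ s → s ≤ r / 2 → ∃ a : ℕ → ℂ, (∀ i, ‖a i‖ ≤ B) ∧
    ∀ y : ℝ, y ^ 2 ≤ r * s → L (ex (-(s • u) + y • t)) = ∑ i ∈ Finset.range D, a i * (y : ℂ) ^ i
  cont : ∀ ε > 0, ∃ δ > 0, ∀ s, 0 ≤ s → s ≤ δ → ∀ y : ℝ, y ^ 2 ≤ r * s →
    1 - (L (ex (-(s • u) + y • t))).re ≤ ε

/-- The moments. -/
noncomputable def A (L : StrongDual ℂ (E →ᵇ ℂ)) (t : E) (j : ℕ) (η : ℝ) : ℝ :=
  (L (W t η ^ j)).re

/-- The constants. -/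
noncomputable def Cj (D : ℕ) (B : ℝ) (j : ℕ) : ℝ :=
  if D ≤ 2 * j then 0 else ∑ i ∈ Finset.range D, B * ‖kap j i‖

variable {L : StrongDual ℂ (E →ᵇ ℂ)} {u t : E} {r : ℝ} {D : ℕ} {B : ℝ}

theorem Dat.B0 (h : Dat L u t r D B) : 0 ≤ B := by
  obtain ⟨a, ha, _⟩ := h.poly 0 le_rfl (by have := h.rpos; linarith)
  exact (norm_nonneg _).trans (ha 0)

theorem Cj_nonneg (hB : 0 ≤ B) (j : ℕ) : 0 ≤ Cj D B j := by
  unfold Cj
  split_ifs
  · exact le_rfl
  · exact Finset.sum_nonneg fun i _ => mul_nonneg hB (norm_nonneg _)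

theorem Dat.F2 (h : Dat L u t r D B) (j : ℕ) (η : ℝ) (h0 : 0 ≤ η) (h1 : η ≤ 1) (s : ℝ)
    (hs0 : 0 ≤ s) (hs : s ≤ r / 2) (hjs : (j : ℝ) ^ 2 * η ^ 2 ≤ r * s) :
    ‖L (W t η ^ j * ex (-(s • u)))‖ ≤ Cj D B j * η ^ (2 * j) := by
  obtain ⟨a, ha, hp⟩ := h.poly s hs0 hs
  have e1 := L_diff L t (-(s • u)) η j 0
  rw [zero_smul, add_zero] at e1
  rw [e1]
  rw [dd_local η h0 j _ (fun y : ℝ => ∑ i ∈ Finset.range D, a i * (y : ℂ) ^ i) 0 (fun y hy => by
    refine hp y ?_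
    rw [zero_add] at hy
    calc y ^ 2 = |y| ^ 2 := (sq_abs y).symm
      _ ≤ (j * η) ^ 2 := pow_le_pow_left₀ (abs_nonneg _) hy 2
      _ ≤ r * s := by rw [mul_pow]; exact hjs) 0 (by simp)]
  unfold Cj
  split_ifs with hD
  · rw [dd_poly_zero η j D hD]; simp
  · exact dd_poly_bound η h0 h1 j D a B ha

theorem wv_pow_scale (t : E) (η : ℝ) (x : E) (j m : ℕ) :
    wv t (2 ^ m * η) x ^ j ≤ (4 ^ j) ^ m * wv t η x ^ j := by
  induction m with
  | zero => simp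
  | succ m ih =>
    rw [show (2 : ℝ) ^ (m + 1) * η = 2 * (2 ^ m * η) by ring]
    calc wv t (2 * (2 ^ m * η)) x ^ j ≤ 4 ^ j * wv t (2 ^ m * η) x ^ j := wv_two_pow_le _ _ _ _
      _ ≤ 4 ^ j * ((4 ^ j) ^ m * wv t η x ^ j) := mul_le_mul_of_nonneg_left ih (by positivity)
      _ = _ := by ring

theorem A_eq (L : StrongDual ℂ (E →ᵇ ℂ)) (t : E) (j : ℕ) (η : ℝ) (f : E →ᵇ ℂ)
    (hL : ‖L‖ ≤ 1) (h1 : L 1 = 1) (hf : ∀ x, (f x).re = wv t η x ^ j) :
    (L f).re = A L t j η :=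
  re_congr L hL h1 _ _ fun x => by rw [hf, W_pow_apply, Complex.ofReal_re]

theorem A_nonneg (hL : ‖L‖ ≤ 1) (h1 : L 1 = 1) (j : ℕ) (η : ℝ) : 0 ≤ A L t j η :=
  re_nonneg L hL h1 _ fun x => by
    rw [W_pow_apply, Complex.ofReal_re]; exact pow_nonneg (wv_nonneg _ _ _) _

theorem Dat.main (h : Dat L u t r D B) (j m : ℕ) (η ε : ℝ) (N : ℕ) (hN : 1 ≤ N) (K ω : ℝ)
    (hK : 0 ≤ K) (hω : 0 ≤ ω)
    (h2 : ∀ d : ℕ, 1 ≤ d → d < N → ‖L (W t η ^ j * ex (-((d * ε) • u)))‖ ≤ K)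
    (h3 : ∀ d : ℕ, 1 ≤ d → d < N → 1 - (L (ex (-((d * ε) • u)))).re ≤ ω) :
    A L t j (2 ^ m * η) ≤ (4 ^ j) ^ m * (A L t j η / N + K) + 4 ^ j * ω := by
  have hL := h.norm_le
  have h1 := h.one
  have e1 : A L t j (2 ^ m * η) = (L (W t (2 ^ m * η) ^ j * G u ε N)).re +
      (L (W t (2 ^ m * η) ^ j * (1 - G u ε N))).re := by
    unfold A
    rw [← Complex.add_re, ← map_add, ← mul_add]
    simp
  have e2 : (L (W t (2 ^ m * η) ^ j * G u ε N)).re ≤
      (4 ^ j) ^ m * (L (W t η ^ j * G u ε N)).re := by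
    have : (4 ^ j) ^ m * (L (W t η ^ j * G u ε N)).re =
        (L (((((4 : ℝ) ^ j) ^ m : ℝ) : ℂ) • (W t η ^ j * G u ε N))).re := by
      rw [map_smul, smul_eq_mul, Complex.re_ofReal_mul]
    rw [this]
    refine re_mono L hL h1 _ _ fun x => ?_
    have e3 : ((((((4 : ℝ) ^ j) ^ m : ℝ) : ℂ) • (W t η ^ j * G u ε N)) x).re =
        (4 ^ j) ^ m * ((W t η ^ j * G u ε N) x).re := by
      have : (((((4 : ℝ) ^ j) ^ m : ℝ) : ℂ) • (W t η ^ j * G u ε N)) x =
        ((((4 : ℝ) ^ j) ^ m : ℝ) : ℂ) * (W t η ^ j * G u ε N) x := rfl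
      rw [this, Complex.re_ofReal_mul]
    rw [e3, W_pow_mul_re, W_pow_mul_re, ← mul_assoc]
    exact mul_le_mul_of_nonneg_right (wv_pow_scale _ _ _ _ _) (G_nonneg _ _ _ _)
  have e3 : (L (W t η ^ j * G u ε N)).re ≤ A L t j η / N + K := by
    rw [L_mul_G]
    refine avg_bound N hN (fun z => (L (W t η ^ j * ex (z • u))).re) ε (A L t j η) K ?_ hK
      (A_nonneg hL h1 _ _) (fun z => ?_) (fun d hd hdN => ?_)
    · simp only [zero_smul, ex_zero, mul_one]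
      exact le_rfl
    · rw [neg_smul, W_pow_ex_symm L hL h1]
    · rw [neg_smul]
      exact (Complex.re_le_norm _).trans (h2 d hd hdN)
  have e4 : (L (W t (2 ^ m * η) ^ j * (1 - G u ε N))).re ≤ 4 ^ j * ω := by
    have h5 := one_sub_G L hL h1 u ε N hN ω hω h3
    have h6 : (L (W t (2 ^ m * η) ^ j * (1 - G u ε N))).re ≤
        (L ((((4 : ℝ) ^ j : ℝ) : ℂ) • (1 - G u ε N))).re := by
      refine re_mono L hL h1 _ _ fun x => ?_
      have e3 : ((((((4 : ℝ) ^ j) : ℝ) : ℂ) • (1 - G u ε N)) x).re =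
          4 ^ j * ((1 - G u ε N) x).re := by
        have : ((((4 : ℝ) ^ j : ℝ) : ℂ) • (1 - G u ε N)) x =
          (((4 : ℝ) ^ j : ℝ) : ℂ) * (1 - G u ε N) x := rfl
        rw [this, Complex.re_ofReal_mul]
      rw [e3, W_pow_mul_re]
      refine mul_le_mul_of_nonneg_right (pow_le_pow_left₀ (wv_nonneg _ _ _) (wv_le _ _ _) _) ?_
      have : (1 - G u ε N) x = 1 - G u ε N x := rfl
      rw [this, Complex.sub_re, Complex.one_re]
      linarith [G_le u ε N hN x]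
    refine h6.trans ?_
    rw [map_smul, smul_eq_mul, Complex.re_ofReal_mul, map_sub, h1, Complex.sub_re,
      Complex.one_re]
    exact mul_le_mul_of_nonneg_left h5 (by positivity)
  rw [e1]
  have := mul_le_mul_of_nonneg_left e3 (show (0 : ℝ) ≤ (4 ^ j) ^ m by positivity)
  linarith

theorem Dat.step1 (h : Dat L u t r D B) (i : ℕ) (η : ℝ) (hη : 0 < η)
    (hH : Tendsto (fun m : ℕ => A L t (i + 1) (η / 2 ^ m) / (η / 2 ^ m) ^ (2 * i)) atTop (𝓝 0)) :
    A L t (i + 1) η ≤ Cj D B (i + 1) * η ^ (2 * (i + 1)) := by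
  have hr := h.rpos
  refine le_of_forall_pos_le_add fun e he => ?_
  set j := i + 1 with hj
  have hjpos : (0 : ℝ) < j := by rw [hj]; positivity
  obtain ⟨δ0, hδ0, hcont⟩ := h.cont (e / 4 ^ j) (by positivity)
  set δ := min δ0 (r / 2) with hδ
  have hδp : 0 < δ := lt_min hδ0 (by linarith)
  have hC := Cj_nonneg (D := D) h.B0 j
  have hT : Tendsto (fun m : ℕ => (2 * (j : ℝ) ^ 2 / (r * δ)) * η ^ (2 * j) *
      (A L t j (η / 2 ^ m) / (η / 2 ^ m) ^ (2 * i)) + (Cj D B j * η ^ (2 * j) + e)) atTop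
      (𝓝 ((2 * (j : ℝ) ^ 2 / (r * δ)) * η ^ (2 * j) * 0 + (Cj D B j * η ^ (2 * j) + e))) :=
    (hH.const_mul _).add_const _
  rw [mul_zero, zero_add] at hT
  refine ge_of_tendsto hT ?_
  have hlim : Tendsto (fun m : ℕ => η / 2 ^ m) atTop (𝓝 0) := by
    have := (tendsto_pow_atTop_nhds_zero_of_lt_one (r := (1 / 2 : ℝ)) (by norm_num)
      (by norm_num)).const_mul η
    rw [mul_zero] at this
    refine this.congr fun m => ?_
    rw [one_div, inv_pow]; rfl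
  have hlim2 : Tendsto (fun m : ℕ => (j : ℝ) ^ 2 * (η / 2 ^ m) ^ 2 / r) atTop (𝓝 0) := by
    have := ((hlim.pow 2).const_mul ((j : ℝ) ^ 2)).div_const r
    simpa using this
  filter_upwards [hlim.eventually (eventually_le_nhds one_pos),
    hlim2.eventually (eventually_le_nhds hδp)] with m hm1 hm2
  set ηm := η / 2 ^ m with hηm
  have hηm0 : 0 < ηm := by positivity
  set ε := (j : ℝ) ^ 2 * ηm ^ 2 / r with hε
  have hε0 : 0 < ε := by positivity
  set N := ⌊δ / ε⌋₊ with hN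
  have hx1 : 1 ≤ δ / ε := by rw [le_div_iff₀ hε0, one_mul]; exact hm2
  have hN1 : 1 ≤ N := by rw [hN]; exact (Nat.one_le_floor_iff _).2 hx1
  have hNle : (N : ℝ) * ε ≤ δ := by
    have := Nat.floor_le (show 0 ≤ δ / ε by positivity)
    rw [← hN] at this
    rwa [le_div_iff₀ hε0] at this
  have hNpos : (0 : ℝ) < N := by exact_mod_cast hN1
  have hNinv : 1 / (N : ℝ) ≤ 2 * ε / δ := by
    have h6 : δ / ε < N + 1 := by rw [hN]; exact Nat.lt_floor_add_one _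
    have h7 : δ / ε ≤ 2 * N := by
      have : (1 : ℝ) ≤ N := by exact_mod_cast hN1
      linarith
    rw [div_le_iff₀ hε0] at h7
    rw [div_le_div_iff₀ hNpos hδp]
    linarith
  have hd : ∀ d : ℕ, 1 ≤ d → d < N → 0 ≤ (d : ℝ) * ε ∧ (d : ℝ) * ε ≤ δ ∧ ε ≤ d * ε := by
    intro d hd1 hdN
    have a1 : (1 : ℝ) ≤ d := by exact_mod_cast hd1
    have a2 : (d : ℝ) ≤ N := by exact_mod_cast hdN.le
    refine ⟨by positivity, ?_, ?_⟩
    · exact (mul_le_mul_of_nonneg_right a2 hε0.le).trans hNle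
    · nlinarith
  have hm := h.main j m ηm ε N hN1 (Cj D B j * ηm ^ (2 * j)) (e / 4 ^ j)
    (mul_nonneg hC (by positivity)) (by positivity)
    (fun d hd1 hdN => by
      obtain ⟨b1, b2, b3⟩ := hd d hd1 hdN
      refine h.F2 j ηm hηm0.le hm1 _ b1 (b2.trans (min_le_right _ _)) ?_
      have : (j : ℝ) ^ 2 * ηm ^ 2 = r * ε := by rw [hε]; field_simp
      rw [this]
      exact mul_le_mul_of_nonneg_left b3 hr.le)
    (fun d hd1 hdN => by
      obtain ⟨b1, b2, b3⟩ := hd d hd1 hdN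
      have := hcont _ b1 (b2.trans (min_le_left _ _)) 0 (by
        have := mul_nonneg hr.le b1
        simpa using this)
      rwa [zero_smul, add_zero] at this)
  have e0 : 2 ^ m * ηm = η := by rw [hηm]; field_simp
  rw [e0] at hm
  have e1 : ((4 : ℝ) ^ j) ^ m * ηm ^ (2 * j) = η ^ (2 * j) := by
    rw [← e0, mul_pow, ← pow_mul, ← pow_mul]
    congr 1
    rw [show (4 : ℝ) = 2 ^ 2 by norm_num, ← pow_mul]
    congr 1
    ring
  have hA := A_nonneg (t := t) h.norm_le h.one j ηm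
  have e2 : ((4 : ℝ) ^ j) ^ m * (A L t j ηm / N) ≤
      (2 * (j : ℝ) ^ 2 / (r * δ)) * η ^ (2 * j) * (A L t j ηm / ηm ^ (2 * i)) := by
    calc ((4 : ℝ) ^ j) ^ m * (A L t j ηm / N)
        = ((4 : ℝ) ^ j) ^ m * (A L t j ηm) * (1 / N) := by ring
      _ ≤ ((4 : ℝ) ^ j) ^ m * (A L t j ηm) * (2 * ε / δ) :=
          mul_le_mul_of_nonneg_left hNinv (by positivity)
      _ = _ := by
          rw [← e1, hε, hj]
          rw [show 2 * (i + 1) = 2 * i + 2 by ring, pow_add]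
          field_simp
          ring
  rw [mul_add] at hm
  have e3 : ((4 : ℝ) ^ j) ^ m * (Cj D B j * ηm ^ (2 * j)) = Cj D B j * η ^ (2 * j) := by
    rw [← e1]; ring
  have e4 : (4 : ℝ) ^ j * (e / 4 ^ j) = e := by field_simp
  rw [e3, e4] at hm
  linarith

theorem A_two_le (hL : ‖L‖ ≤ 1) (h1 : L 1 = 1) (j : ℕ) (η : ℝ) :
    A L t j (2 * η) ≤ 4 ^ j * A L t j η := by
  have : 4 ^ j * A L t j η = (L ((((4 : ℝ) ^ j : ℝ) : ℂ) • (W t η ^ j))).re := by
    rw [map_smul, smul_eq_mul, Complex.re_ofReal_mul]; rfl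
  rw [this]
  refine re_mono L hL h1 _ _ fun x => ?_
  have e : ((((4 : ℝ) ^ j : ℝ) : ℂ) • (W t η ^ j)) x =
    (((4 : ℝ) ^ j : ℝ) : ℂ) * (W t η ^ j) x := rfl
  rw [e, Complex.re_ofReal_mul, W_pow_apply, W_pow_apply, Complex.ofReal_re, Complex.ofReal_re]
  exact wv_two_pow_le _ _ _ _

theorem A_succ_le (hL : ‖L‖ ≤ 1) (h1 : L 1 = 1) (j : ℕ) (η : ℝ) :
    4 ^ j * A L t (j + 2) η ≤ 4 ^ (j + 1) * A L t (j + 1) η - A L t (j + 1) (2 * η) := by
  have : 4 ^ (j + 1) * A L t (j + 1) η - 4 ^ j * A L t (j + 2) η =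
      (L ((((4 : ℝ) ^ (j + 1) : ℝ) : ℂ) • (W t η ^ (j + 1)) -
        (((4 : ℝ) ^ j : ℝ) : ℂ) • (W t η ^ (j + 2)))).re := by
    rw [map_sub, map_smul, map_smul, smul_eq_mul, smul_eq_mul, Complex.sub_re,
      Complex.re_ofReal_mul, Complex.re_ofReal_mul]; rfl
  have h2 : A L t (j + 1) (2 * η) ≤ (L ((((4 : ℝ) ^ (j + 1) : ℝ) : ℂ) • (W t η ^ (j + 1)) -
        (((4 : ℝ) ^ j : ℝ) : ℂ) • (W t η ^ (j + 2)))).re := by
    refine re_mono L hL h1 _ _ fun x => ?_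
    have e : ((((4 : ℝ) ^ (j + 1) : ℝ) : ℂ) • (W t η ^ (j + 1)) -
        (((4 : ℝ) ^ j : ℝ) : ℂ) • (W t η ^ (j + 2))) x =
      (((4 : ℝ) ^ (j + 1) : ℝ) : ℂ) * (W t η ^ (j + 1)) x -
        (((4 : ℝ) ^ j : ℝ) : ℂ) * (W t η ^ (j + 2)) x := rfl
    rw [e, Complex.sub_re, Complex.re_ofReal_mul, Complex.re_ofReal_mul, W_pow_apply,
      W_pow_apply, W_pow_apply, Complex.ofReal_re, Complex.ofReal_re, Complex.ofReal_re]
    exact wv_two_pow _ _ _ _
  linarith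

theorem Dat.step2 (h : Dat L u t r D B) (i : ℕ)
    (hP : ∀ η : ℝ, 0 < η → A L t (i + 1) η ≤ Cj D B (i + 1) * η ^ (2 * (i + 1)))
    (η : ℝ) (hη : 0 < η) :
    Tendsto (fun m : ℕ => A L t (i + 1 + 1) (η / 2 ^ m) / (η / 2 ^ m) ^ (2 * (i + 1)))
      atTop (𝓝 0) := by
  have hL := h.norm_le
  have h1 := h.one
  set a : ℕ → ℝ := fun m => A L t (i + 1) (η / 2 ^ m) / (η / 2 ^ m) ^ (2 * (i + 1)) with ha
  have hpos : ∀ m : ℕ, 0 < η / 2 ^ m := fun m => by positivity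
  have htwo : ∀ m : ℕ, 2 * (η / 2 ^ (m + 1)) = η / 2 ^ m := fun m => by
    rw [pow_succ]; field_simp
  have hp4 : ∀ m : ℕ, (η / 2 ^ m) ^ (2 * (i + 1)) = 4 ^ (i + 1) *
      (η / 2 ^ (m + 1)) ^ (2 * (i + 1)) := fun m => by
    rw [← htwo m, mul_pow, pow_mul (2 : ℝ) 2]; norm_num
  have hmono : Monotone a := monotone_nat_of_le_succ fun m => by
    simp only [ha]
    rw [div_le_div_iff₀ (pow_pos (hpos _) _) (pow_pos (hpos _) _), hp4 m, ← htwo m]
    have := A_two_le (t := t) hL h1 (i + 1) (η / 2 ^ (m + 1))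
    have hq : 0 ≤ (η / 2 ^ (m + 1)) ^ (2 * (i + 1)) := (pow_pos (hpos _) _).le
    calc A L t (i + 1) (2 * (η / 2 ^ (m + 1))) * (η / 2 ^ (m + 1)) ^ (2 * (i + 1))
        ≤ (4 ^ (i + 1) * A L t (i + 1) (η / 2 ^ (m + 1))) *
          (η / 2 ^ (m + 1)) ^ (2 * (i + 1)) := mul_le_mul_of_nonneg_right this hq
      _ = _ := by ring
  have hbdd : BddAbove (Set.range a) := ⟨Cj D B (i + 1), by
    rintro _ ⟨m, rfl⟩
    simp only [ha]
    rw [div_le_iff₀ (pow_pos (hpos _) _)]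
    exact hP _ (hpos m)⟩
  have hlim := tendsto_atTop_ciSup hmono hbdd
  set l := ⨆ m, a m with hl
  have hd : Tendsto (fun m : ℕ => 4 * (a (m + 1) - a m)) atTop (𝓝 0) := by
    have := (((tendsto_add_atTop_iff_nat 1).2 hlim).sub hlim).const_mul 4
    simpa using this
  rw [← tendsto_add_atTop_iff_nat 1]
  refine squeeze_zero (fun m => div_nonneg (A_nonneg hL h1 _ _) (pow_pos (hpos _) _).le)
    (fun m => ?_) hd
  have h5 := A_succ_le (t := t) hL h1 i (η / 2 ^ (m + 1))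
  rw [htwo m] at h5
  have hq : 0 < (η / 2 ^ (m + 1)) ^ (2 * (i + 1)) := pow_pos (hpos _) _
  simp only [ha]
  rw [hp4 m, div_le_iff₀ hq]
  have e : 4 * (A L t (i + 1) (η / 2 ^ (m + 1)) / (η / 2 ^ (m + 1)) ^ (2 * (i + 1)) -
      A L t (i + 1) (η / 2 ^ m) / (4 ^ (i + 1) * (η / 2 ^ (m + 1)) ^ (2 * (i + 1)))) *
      (η / 2 ^ (m + 1)) ^ (2 * (i + 1)) = (4 ^ (i + 1) * A L t (i + 1) (η / 2 ^ (m + 1)) -
        A L t (i + 1) (η / 2 ^ m)) / 4 ^ i := by
    field_simp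
    ring
  rw [e, le_div_iff₀ (by positivity)]
  linarith

theorem cos_three (α β : ℝ) :
    2 - 2 * Real.cos α ≤ 2 * (2 - 2 * Real.cos (α - β)) + 2 * (2 - 2 * Real.cos β) := by
  rw [Real.cos_sub]
  have h1 := Real.sin_sq_add_cos_sq α
  have h2 := Real.sin_sq_add_cos_sq β
  nlinarith [sq_nonneg (Real.cos α - Real.cos β - (Real.cos β - 1)),
    sq_nonneg (Real.sin α - Real.sin β - Real.sin β)]

theorem Dat.base (h : Dat L u t r D B) (η : ℝ) (hη : 0 < η) :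
    Tendsto (fun m : ℕ => A L t (0 + 1) (η / 2 ^ m) / (η / 2 ^ m) ^ (2 * 0)) atTop (𝓝 0) := by
  have hL := h.norm_le
  have h1 := h.one
  have hr := h.rpos
  have hlim : Tendsto (fun m : ℕ => η / 2 ^ m) atTop (𝓝 0) := by
    have := (tendsto_pow_atTop_nhds_zero_of_lt_one (r := (1 / 2 : ℝ)) (by norm_num)
      (by norm_num)).const_mul η
    rw [mul_zero] at this
    refine this.congr fun m => ?_
    rw [one_div, inv_pow]; rfl
  have hlim2 : Tendsto (fun m : ℕ => (η / 2 ^ m) ^ 2 / r) atTop (𝓝 0) := by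
    have := (hlim.pow 2).div_const r
    simpa using this
  rw [Metric.tendsto_atTop]
  intro e he
  obtain ⟨δ, hδ, hc⟩ := h.cont (e / 16) (by positivity)
  obtain ⟨M, hM⟩ := eventually_atTop.1 (hlim2.eventually (eventually_le_nhds hδ))
  refine ⟨M, fun m hm => ?_⟩
  have hm' := hM m hm
  set ηm := η / 2 ^ m with hηm
  set s := ηm ^ 2 / r with hs
  have hs0 : 0 ≤ s := by positivity
  have hrs : r * s = ηm ^ 2 := by rw [hs]; field_simp
  have c1 := hc s hs0 hm' ηm (by rw [hrs])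
  have c2 := hc s hs0 hm' 0 (by rw [hrs, zero_pow two_ne_zero]; positivity)
  rw [zero_smul, add_zero] at c2
  have key : A L t (0 + 1) ηm ≤ 4 * (1 - (L (ex (-(s • u) + ηm • t))).re) +
      4 * (1 - (L (ex (-(s • u)))).re) := by
    have e1 : 4 * (1 - (L (ex (-(s • u) + ηm • t))).re) +
      4 * (1 - (L (ex (-(s • u)))).re) = (L (((4 : ℝ) : ℂ) • (1 - ex (-(s • u) + ηm • t)) +
        ((4 : ℝ) : ℂ) • (1 - ex (-(s • u))))).re := by
      rw [map_add, map_smul, map_smul, map_sub, map_sub, h1, smul_eq_mul, smul_eq_mul,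
        Complex.add_re, Complex.re_ofReal_mul, Complex.re_ofReal_mul, Complex.sub_re,
        Complex.sub_re, Complex.one_re]
    rw [e1]
    refine re_mono L hL h1 _ _ fun x => ?_
    have e2 : (((4 : ℝ) : ℂ) • (1 - ex (-(s • u) + ηm • t)) +
        ((4 : ℝ) : ℂ) • (1 - ex (-(s • u)))) x = ((4 : ℝ) : ℂ) * (1 - ex (-(s • u) + ηm • t) x) +
        ((4 : ℝ) : ℂ) * (1 - ex (-(s • u)) x) := rfl
    rw [e2, Complex.add_re, Complex.re_ofReal_mul, Complex.re_ofReal_mul, Complex.sub_re,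
      Complex.sub_re, Complex.one_re, ex_re, ex_re, W_pow_apply, Complex.ofReal_re, zero_add,
      pow_one, inner_add_right, inner_neg_right, inner_smul_right, inner_smul_right,
      Real.cos_neg]
    unfold wv
    have := cos_three (ηm * inner ℝ x t) (s * inner ℝ x u)
    rw [show -(s * inner ℝ x u) + ηm * inner ℝ x t = ηm * inner ℝ x t - s * inner ℝ x u by ring]
    linarith
  have hA := A_nonneg (t := t) hL h1 (0 + 1) ηm
  rw [mul_zero, pow_zero, div_one, Real.dist_eq, sub_zero, abs_of_nonneg hA]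
  linarith

theorem Dat.all (h : Dat L u t r D B) (i : ℕ) : ∀ η : ℝ, 0 < η →
    A L t (i + 1) η ≤ Cj D B (i + 1) * η ^ (2 * (i + 1)) := by
  induction i with
  | zero => exact fun η hη => h.step1 0 η hη (h.base η hη)
  | succ i ih => exact fun η hη => h.step1 (i + 1) η hη (h.step2 i ih η hη)

theorem Dat.A_one (h : Dat L u t r D B) (η : ℝ) (hη : 0 < η) : A L t 1 η ≤ 0 := by
  have hL := h.norm_le
  have h1 := h.one
  have h2 := h.all D η hη
  have h3 : Cj D B (D + 1) = 0 := by unfold Cj; rw [if_pos (by omega)]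
  rw [h3, zero_mul] at h2
  refine le_of_forall_pos_le_add fun e he => ?_
  rw [zero_add]
  have key : A L t 1 η ≤ e + 4 / e ^ (D + 1) * A L t (D + 1) η := by
    have e1 : e + 4 / e ^ (D + 1) * A L t (D + 1) η = (L (((e : ℝ) : ℂ) • 1 +
        ((4 / e ^ (D + 1) : ℝ) : ℂ) • W t η ^ (D + 1))).re := by
      rw [map_add, map_smul, map_smul, h1, smul_eq_mul, smul_eq_mul, Complex.add_re,
        Complex.re_ofReal_mul, Complex.re_ofReal_mul, Complex.one_re, mul_one]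
      rfl
    rw [e1]
    refine re_mono L hL h1 _ _ fun x => ?_
    have e2 : (((e : ℝ) : ℂ) • (1 : E →ᵇ ℂ) +
        ((4 / e ^ (D + 1) : ℝ) : ℂ) • W t η ^ (D + 1)) x = ((e : ℝ) : ℂ) * 1 +
        ((4 / e ^ (D + 1) : ℝ) : ℂ) * (W t η ^ (D + 1)) x := rfl
    rw [e2, Complex.add_re, Complex.re_ofReal_mul, Complex.re_ofReal_mul, Complex.one_re,
      W_pow_apply, W_pow_apply, Complex.ofReal_re, Complex.ofReal_re, pow_one, mul_one]
    have w0 := wv_nonneg t η x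
    have w4 := wv_le t η x
    rcases le_total (wv t η x) e with hw | hw
    · have : 0 ≤ 4 / e ^ (D + 1) * wv t η x ^ (D + 1) := by positivity
      linarith
    · have h5 : 1 ≤ (wv t η x / e) ^ (D + 1) := one_le_pow₀ (by rwa [le_div_iff₀ he, one_mul])
      have h6 : 4 / e ^ (D + 1) * wv t η x ^ (D + 1) = 4 * (wv t η x / e) ^ (D + 1) := by
        rw [div_pow]; ring
      rw [h6]
      linarith
  have h7 : 4 / e ^ (D + 1) * A L t (D + 1) η ≤ 0 :=
    mul_nonpos_of_nonneg_of_nonpos (by positivity) h2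
  linarith

/-- The conclusion: the state does not see the direction t. -/
theorem Dat.shift (h : Dat L u t r D B) (v : E) (η : ℝ) (hη : 0 < η) :
    L (ex (v + η • t)) = L (ex v) := by
  have hL := h.norm_le
  have h1 := h.one
  have hA := h.A_one η hη
  rw [← sub_eq_zero, ← map_sub]
  set z := L (ex (v + η • t) - ex v) with hz
  by_contra hne
  have hzn : 0 < ‖z‖ := norm_pos_iff.2 hne
  set c : ℂ := (starRingEnd ℂ) z / ‖z‖ with hc
  have hcn : ‖c‖ = 1 := by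
    rw [hc, norm_div, Complex.norm_conj, Complex.norm_real, Real.norm_of_nonneg hzn.le,
      div_self hzn.ne']
  have hcz : (c * z).re = ‖z‖ := by
    rw [hc, div_mul_eq_mul_div, mul_comm, Complex.mul_conj, Complex.normSq_eq_norm_sq,
      ← Complex.ofReal_div, Complex.ofReal_re]
    field_simp
  have key : (c * z).re ≤ ‖z‖ / 2 + 1 / (‖z‖ / 2) * A L t 1 η := by
    have e1 : ‖z‖ / 2 + 1 / (‖z‖ / 2) * A L t 1 η = (L (((‖z‖ / 2 : ℝ) : ℂ) • 1 +
        ((1 / (‖z‖ / 2) : ℝ) : ℂ) • W t η ^ 1)).re := by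
      rw [map_add, map_smul, map_smul, h1, smul_eq_mul, smul_eq_mul, Complex.add_re,
        Complex.re_ofReal_mul, Complex.re_ofReal_mul, Complex.one_re, mul_one]
      rfl
    have e0 : c * z = L (c • (ex (v + η • t) - ex v)) := by rw [map_smul, smul_eq_mul]
    rw [e1, e0]
    refine re_mono L hL h1 _ _ fun x => ?_
    have e2 : (((‖z‖ / 2 : ℝ) : ℂ) • (1 : E →ᵇ ℂ) +
        ((1 / (‖z‖ / 2) : ℝ) : ℂ) • W t η ^ 1) x = ((‖z‖ / 2 : ℝ) : ℂ) * 1 +
        ((1 / (‖z‖ / 2) : ℝ) : ℂ) * (W t η ^ 1) x := rfl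
    have e3 : (c • (ex (v + η • t) - ex v)) x = c * (ex (v + η • t) x - ex v x) := rfl
    rw [e2, e3, Complex.add_re, Complex.re_ofReal_mul, Complex.re_ofReal_mul, Complex.one_re,
      W_pow_apply, Complex.ofReal_re, pow_one, mul_one]
    have h5 : (c * (ex (v + η • t) x - ex v x)).re ≤ ‖ex (η • t) x - 1‖ := by
      refine (Complex.re_le_norm _).trans ?_
      rw [norm_mul, hcn, one_mul, ex_add]
      have : (ex v * ex (η • t)) x = ex v x * ex (η • t) x := rfl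
      rw [this, ← mul_sub_one, norm_mul, ex_norm_apply, one_mul]
    have h6 : ‖ex (η • t) x - 1‖ ^ 2 = wv t η x := by
      rw [← Complex.normSq_eq_norm_sq, ex_apply, Complex.normSq_apply, Complex.sub_re,
        Complex.sub_im, Complex.exp_ofReal_mul_I_re, Complex.exp_ofReal_mul_I_im,
        Complex.one_re, Complex.one_im, inner_smul_right]
      unfold wv
      nlinarith [Real.sin_sq_add_cos_sq (η * inner ℝ x t)]
    refine h5.trans ?_
    rw [← h6]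
    set q := ‖ex (η • t) x - 1‖
    have hp : 0 < ‖z‖ / 2 := by positivity
    rw [one_div, inv_mul_eq_div]
    have h8 : q ≤ ‖z‖ / 2 + q ^ 2 / (‖z‖ / 2) := by
      rcases le_total q (‖z‖ / 2) with hq | hq
      · have : 0 ≤ q ^ 2 / (‖z‖ / 2) := by positivity
        linarith
      · have : q ≤ q ^ 2 / (‖z‖ / 2) := by
          rw [le_div_iff₀ hp]
          nlinarith [norm_nonneg (ex (η • t) x - 1)]
        linarith
    exact h8
  rw [hcz] at key
  have : 1 / (‖z‖ / 2) * A L t 1 η ≤ 0 := mul_nonpos_of_nonneg_of_nonpos (by positivity) hA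
  linarith

end Pool.Agent.X205.BE
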