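import Mathlib

/-! Iterated central second differences. -/

set_option autoImplicit false

namespace Pool.Agent.X205.BE

/-- The operator f ↦ 2 f(y) - f(y+h) - f(y-h). -/
def dd (h : ℝ) (f : ℝ → ℂ) : ℝ → ℂ := fun y => 2 * f y - f (y + h) - f (y - h)

theorem dd_apply (h : ℝ) (f : ℝ → ℂ) (y : ℝ) : dd h f y = 2 * f y - f (y + h) - f (y - h) := rfl

theorem dd_local (h : ℝ) (hh : 0 ≤ h) (j : ℕ) :
    ∀ (f g : ℝ → ℂ) (Y : ℝ), (∀ y, |y| ≤ Y + j * h → f y = g y) →
      ∀ y, |y| ≤ Y → (dd h)^[j] f y = (dd h)^[j] g y := by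
  induction j with
  | zero => intro f g Y hfg y hy; exact hfg y (by simpa using hy)
  | succ j ih =>
    intro f g Y hfg y hy
    rw [Function.iterate_succ_apply, Function.iterate_succ_apply]
    refine ih _ _ Y (fun z hz => ?_) y hy
    have e1 : f z = g z := hfg z (by push_cast; nlinarith)
    have e2 : f (z + h) = g (z + h) := hfg _ (by
      push_cast
      calc |z + h| ≤ |z| + |h| := abs_add_le _ _
        _ ≤ Y + j * h + h := by rw [abs_of_nonneg hh]; linarith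
        _ = _ := by ring)
    have e3 : f (z - h) = g (z - h) := hfg _ (by
      push_cast
      calc |z - h| ≤ |z| + |h| := abs_sub _ _
        _ ≤ Y + j * h + h := by rw [abs_of_nonneg hh]; linarith
        _ = _ := by ring)
    rw [dd_apply, dd_apply, e1, e2, e3]

theorem dd_sum (h : ℝ) (j : ℕ) {ι : Type*} (s : Finset ι) (a : ι → ℂ) (f : ι → ℝ → ℂ) :
    (dd h)^[j] (fun y => ∑ i ∈ s, a i * f i y) = fun y => ∑ i ∈ s, a i * (dd h)^[j] (f i) y := by
  induction j with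
  | zero => rfl
  | succ j ih =>
    rw [Function.iterate_succ_apply', ih]
    funext y
    simp_rw [Function.iterate_succ_apply', dd_apply]
    rw [Finset.mul_sum, ← Finset.sum_sub_distrib, ← Finset.sum_sub_distrib]
    exact Finset.sum_congr rfl fun i _ => by ring

theorem dd_scale (h : ℝ) (j : ℕ) (f : ℝ → ℂ) :
    ∀ u, (dd h)^[j] f (h * u) = (dd 1)^[j] (fun u => f (h * u)) u := by
  induction j with
  | zero => intro u; rfl
  | succ j ih =>
    intro u
    rw [Function.iterate_succ_apply', Function.iterate_succ_apply', dd_apply, dd_apply,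
      ← ih, ← ih, ← ih, mul_add, mul_sub, mul_one]

/-- The numbers κ(j,i). -/
def kap (j i : ℕ) : ℂ := (dd 1)^[j] (fun u : ℝ => (u : ℂ) ^ i) 0

theorem dd_one_iter (j : ℕ) (f : ℝ → ℂ) :
    ∀ y, (dd 1)^[j] f y = (-1) ^ j * ((fwdDiff (1:ℝ))^[2 * j] f) (y - j) := by
  induction j with
  | zero => intro y; simp
  | succ j ih =>
    intro y
    rw [Function.iterate_succ_apply', dd_apply, ih, ih, ih,
      show 2 * (j + 1) = (2 * j + 1) + 1 by ring,
      Function.iterate_succ_apply', Function.iterate_succ_apply']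
    have hf : ∀ (g : ℝ → ℂ) (z : ℝ), fwdDiff (1:ℝ) g z = g (z + 1) - g z := fun _ _ => rfl
    rw [hf, hf, hf, pow_succ, show y - ((j + 1 : ℕ) : ℝ) + 1 + 1 = y + 1 - j by push_cast; ring,
      show y - ((j + 1 : ℕ) : ℝ) + 1 = y - j by push_cast; ring,
      show y - ((j + 1 : ℕ) : ℝ) = y - 1 - j by push_cast; ring]
    ring

theorem kap_zero {j i : ℕ} (h : i < 2 * j) : kap j i = 0 := by
  unfold kap
  rw [dd_one_iter]
  have h1 : ((fwdDiff (1:ℝ))^[2 * j] (fun u : ℝ => (u : ℂ) ^ i)) =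
      fun y => ((((fwdDiff (1:ℝ))^[2 * j] (fun u : ℝ => u ^ i)) y : ℝ) : ℂ) := by
    generalize 2 * j = m
    induction m with
    | zero => funext y; simp
    | succ m ih =>
      rw [Function.iterate_succ_apply', Function.iterate_succ_apply', ih]
      funext y
      unfold fwdDiff
      push_cast
      rfl
  rw [h1, fwdDiff_iter_pow_eq_zero_of_lt h]
  simp

/-- Value at zero of the iterated difference of a polynomial. -/
theorem dd_poly (h : ℝ) (j D : ℕ) (a : ℕ → ℂ) :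
    (dd h)^[j] (fun y : ℝ => ∑ i ∈ Finset.range D, a i * (y : ℂ) ^ i) 0 =
      ∑ i ∈ Finset.range D, a i * ((h : ℂ) ^ i * kap j i) := by
  have h1 := dd_scale h j (fun y : ℝ => ∑ i ∈ Finset.range D, a i * (y : ℂ) ^ i) 0
  rw [mul_zero] at h1
  rw [h1]
  have h2 : (fun u : ℝ => ∑ i ∈ Finset.range D, a i * ((h * u : ℝ) : ℂ) ^ i) =
      fun u : ℝ => ∑ i ∈ Finset.range D, (a i * (h : ℂ) ^ i) * (u : ℂ) ^ i := by
    funext u
    refine Finset.sum_congr rfl fun i _ => ?_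
    push_cast; ring
  rw [h2, dd_sum 1 j (Finset.range D) (fun i => a i * (h : ℂ) ^ i) (fun i u => (u : ℂ) ^ i)]
  refine Finset.sum_congr rfl fun i _ => ?_
  unfold kap
  ring

theorem dd_poly_bound (h : ℝ) (h0 : 0 ≤ h) (h1 : h ≤ 1) (j D : ℕ) (a : ℕ → ℂ) (B : ℝ)
    (hB : ∀ i, ‖a i‖ ≤ B) :
    ‖(dd h)^[j] (fun y : ℝ => ∑ i ∈ Finset.range D, a i * (y : ℂ) ^ i) 0‖ ≤
      (∑ i ∈ Finset.range D, B * ‖kap j i‖) * h ^ (2 * j) := by
  rw [dd_poly, Finset.sum_mul]
  refine (norm_sum_le _ _).trans (Finset.sum_le_sum fun i _ => ?_)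
  rw [norm_mul, norm_mul, norm_pow, Complex.norm_real, Real.norm_of_nonneg h0]
  have hB0 : 0 ≤ B := (norm_nonneg _).trans (hB 0)
  rcases lt_or_ge i (2 * j) with hi | hi
  · rw [kap_zero hi]; simp
  · have e : h ^ i ≤ h ^ (2 * j) := pow_le_pow_of_le_one h0 h1 hi
    calc ‖a i‖ * (h ^ i * ‖kap j i‖) ≤ B * (h ^ (2 * j) * ‖kap j i‖) :=
          mul_le_mul (hB i) (mul_le_mul_of_nonneg_right e (norm_nonneg _))
            (mul_nonneg (pow_nonneg h0 _) (norm_nonneg _)) hB0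
      _ = _ := by ring

theorem dd_poly_zero (h : ℝ) (j D : ℕ) (hD : D ≤ 2 * j) (a : ℕ → ℂ) :
    (dd h)^[j] (fun y : ℝ => ∑ i ∈ Finset.range D, a i * (y : ℂ) ^ i) 0 = 0 := by
  rw [dd_poly]
  refine Finset.sum_eq_zero fun i hi => ?_
  rw [kap_zero (by have := Finset.mem_range.1 hi; omega)]
  ring

end Pool.Agent.X205.BE
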